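import Pool.Agent.Helper13.TY.XWords

/-!
MP_8ee768_co, project TH-Y', stage X: the test function of a pair of lanes.

`xK K ss c e1 e2`: accepted if the cheap test `pre` fails, or the kill test `K` kills the pair word,
or one of the streams of `ss` with the tag of the pair is accepted by the search machine M10.
A stream is `tag + 2 ^ 20 * quads` with `tag = (e1 + 3 * e2) % 1048573` and 10 bits per quad.
-/

set_option autoImplicit false

namespace Pool.Agent.Helper13.TY

open Pool.Agent.Helper74.TY (XVec Y8 rootA rootM JSound)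
open Pool.Agent.Helper55.TY (RootDead)
open Pool.Agent.Helper55.TY.M10 (KillOK run cB Start)

/-- the tag of a pair of lanes -/
def tag (e1 e2 : ℕ) : ℕ := Nat.mod (Nat.add e1 (Nat.mul 3 e2)) 1048573

/-- one stream -/
def st1 (K : ℕ → Bool) (P f s : ℕ) : Bool :=
  Nat.ble 1 (run K 60 (Nat.div s 1048576) P cB f)

/-- the streams with the right tag -/
def sts (K : ℕ → Bool) (P f t : ℕ) (ss : List ℕ) : Bool :=
  @List.rec ℕ (fun _ => Bool) false (fun s _ ih => @Bool.rec (fun _ => Bool) ih
    (@Bool.rec (fun _ => Bool) ih true (st1 K P f s)) (Nat.beq (Nat.mod s 1048576) t)) ss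

/-- the test of a pair of lanes -/
def xK (K : ℕ → Bool) (ss : List ℕ) (c e1 e2 : ℕ) : Bool :=
  @Bool.rec (fun _ => Bool) true
    ((fun f => @Bool.rec (fun _ => Bool) (sts K (pw c e1 e2) f (tag e1 e2) ss) true (K f))
      (fw c e1 e2)) (pre (Nat.mod c 1180591620717411303424) e1 e2)

theorem sts_cases {K : ℕ → Bool} {P f t : ℕ} {ss : List ℕ} (h : sts K P f t ss = true) :
    ∃ s ∈ ss, st1 K P f s = true := by
  unfold sts at h
  induction ss with
  | nil => exact Bool.noConfusion h
  | cons s ss ih =>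
    have h' : @Bool.rec (fun _ => Bool) (sts K P f t ss)
      (@Bool.rec (fun _ => Bool) (sts K P f t ss) true (st1 K P f s))
      (Nat.beq (Nat.mod s 1048576) t) = true := h
    cases hb : Nat.beq (Nat.mod s 1048576) t with
    | false =>
      rw [hb] at h'
      obtain ⟨s', h1, h2⟩ := ih h'
      exact ⟨s', List.mem_cons_of_mem _ h1, h2⟩
    | true =>
      rw [hb] at h'
      cases hs : st1 K P f s with
      | true => exact ⟨s, List.mem_cons_self, hs⟩
      | false =>
        have h2 : @Bool.rec (fun _ => Bool) (sts K P f t ss) true (st1 K P f s) = true := h'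
        rw [hs] at h2
        obtain ⟨s', h3, h4⟩ := ih h2
        exact ⟨s', List.mem_cons_of_mem _ h3, h4⟩

theorem xK_dead {K : ℕ → Bool} (hK : ∀ B, XVec B 12 Y8 → KillOK K B) {ss : List ℕ}
    {c e1 e2 : ℕ} (hc : c < 2 ^ 495) (h1 : e1 < 2 ^ 330) (h : xK K ss c e1 e2 = true) :
    RootDead (fun B => XVec B 12 Y8) (rootA c e1 e2) rootM := by
  have e0 : (1180591620717411303424 : ℕ) = 2 ^ 70 := by norm_num
  cases hp : pre (c % 2 ^ 70) e1 e2 with
  | false => exact pre_dead hc h1 hp
  | true =>
    intro B hX hF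
    have hS : Start K (pw c e1 e2) (fw c e1 e2) B := (cod_of hX hc h1 hF).start (hK B hX)
    have h' : @Bool.rec (fun _ => Bool) true
        (@Bool.rec (fun _ => Bool) (sts K (pw c e1 e2) (fw c e1 e2) (tag e1 e2) ss) true
          (K (fw c e1 e2))) (pre (c % 1180591620717411303424) e1 e2) = true := h
    rw [e0, hp] at h'
    have h2 : @Bool.rec (fun _ => Bool) (sts K (pw c e1 e2) (fw c e1 e2) (tag e1 e2) ss) true
        (K (fw c e1 e2)) = true := h'
    rw [hS.kill_eq] at h2
    obtain ⟨s, -, hs⟩ := sts_cases (show sts K (pw c e1 e2) (fw c e1 e2) (tag e1 e2) ss = true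
      from h2)
    unfold st1 at hs
    rw [hS.run_eq] at hs
    exact absurd hs (by decide)

/-- THE JOINER OF STAGE X in helper74's form -/
theorem jSound_xK {K : ℕ → Bool} (hK : ∀ B, XVec B 12 Y8 → KillOK K B) {lim1 lim2 c : ℕ}
    (hc : c < 2 ^ 495) (ss : List ℕ) : JSound 576 c (xJ lim1 lim2 (xK K ss c)) :=
  jSound_xJ fun _ _ h1 _ _ h => xK_dead hK hc h1 h

end Pool.Agent.Helper13.TY
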