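import Pool.Agent.Helper74.TY.XRoot
import Pool.Agent.Helper62.TY.Rule8

/-!
MP_8ee768_co, project TH-Y', stage X: root codes which are dead by helper62's `T1E` with the bad
quads through the root alone. A certificate is a list of pairs of positions in the code: the two
quads of the link share a triple, so the triple plus 12 is a bad quad.
-/

set_option autoImplicit false

namespace Pool.Agent.Helper13.TY

open Finset
open Pool.Agent.Helper89.CV (ofMask)
open Pool.Agent.Helper97.CV
open Pool.Agent.Helper79.CV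
open Pool.Agent.Helper74.TY (XVec Y8 XDead)

/-- 12 plus the common points of two quads -/
def qd (p : ℕ × ℕ) : Finset (Fin 13) :=
  insert 12 (ofMask (Nat.land ((L 12 4).getD p.1 0) ((L 12 4).getD p.2 0)))

/-- the weight of a set of bad quads -/
def wt (E : Finset (Finset (Fin 13))) : ℕ :=
  (E.filter fun q => (q ∩ insert 12 Y8).card = 0).card +
    (E.filter fun q => (q ∩ insert 12 Y8).card = 3).card +
    3 * (E.filter fun q => (q ∩ insert 12 Y8).card = 4).card

/-- the check -/
def deadC (c : ℕ) (l : List (ℕ × ℕ)) : Bool :=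
  (l.all fun p => Nat.testBit c p.1 && (Nat.testBit c p.2 && (!(Nat.beq p.1 p.2) &&
    (Nat.blt p.1 495 && (Nat.blt p.2 495 && decide ((qd p).card = 4)))))) &&
  decide (1 < wt (l.map qd).toFinset)

theorem xDead_of_deadC {c : ℕ} {l : List (ℕ × ℕ)} (h : deadC c l = true) : XDead c := by
  intro B hX hlink
  unfold deadC at h
  rw [Bool.and_eq_true, decide_eq_true_eq, List.all_eq_true] at h
  obtain ⟨h1, h2⟩ := h
  have hlen : (L 12 4).length = 495 := by
    rw [length_L]
    decide
  have hq : ∀ q ∈ (l.map qd).toFinset, 1 ≤ ex B q ∧ q.card = 4 := by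
    intro q hq
    rw [List.mem_toFinset, List.mem_map] at hq
    obtain ⟨p, hp, rfl⟩ := hq
    have h3 := h1 p hp
    simp only [Bool.and_eq_true, decide_eq_true_eq, Bool.not_eq_true'] at h3
    obtain ⟨a1, a2, a3, a4, a5, a6⟩ := h3
    refine ⟨?_, a6⟩
    have l1 : p.1 < (L 12 4).length := by
      rw [hlen]
      exact Nat.lt_of_succ_le (Nat.le_of_ble_eq_true a4)
    have l2 : p.2 < (L 12 4).length := by
      rw [hlen]
      exact Nat.lt_of_succ_le (Nat.le_of_ble_eq_true a5)
    have hne : p.1 ≠ p.2 := by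
      intro h
      rw [h] at a3
      have := Nat.beq_refl p.2
      rw [this] at a3
      exact Bool.noConfusion a3
    -- the two blocks
    have key : ∀ i (hi : i < (L 12 4).length), c.testBit i = true →
        insert 12 (ofMask ((L 12 4)[i])) ∈ B ∧ (12 : Fin 13) ∉ ofMask ((L 12 4)[i]) := by
      intro i hi hb
      have hf : ofMask ((L 12 4)[i]) ∈ link B 12 := by
        rw [hlink]
        exact mem_fam.2 ⟨i, hi, hb, rfl⟩
      rw [mem_link] at hf
      exact ⟨hf.2, hf.1⟩
    obtain ⟨b1, n1⟩ := key p.1 l1 a1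
    obtain ⟨b2, n2⟩ := key p.2 l2 a2
    have hsub : ∀ m m' : ℕ, ofMask (Nat.land m m') ⊆ ofMask m ∧
        ofMask (Nat.land m m') ⊆ ofMask m' := by
      intro m m'
      have h5 : ∀ a : Fin 13, a ∈ ofMask (Nat.land m m') → a ∈ ofMask m ∧ a ∈ ofMask m' := by
        intro a ha
        rw [Pool.Agent.Helper79.CV.mem_ofMask] at ha ⊢
        rw [Pool.Agent.Helper79.CV.mem_ofMask]
        have ha' : (m &&& m').testBit a.val = true := ha
        rw [Nat.testBit_and, Bool.and_eq_true] at ha'
        exact ha'
      exact ⟨fun a ha => (h5 a ha).1, fun a ha => (h5 a ha).2⟩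
    have hqd : qd p = insert 12 (ofMask (Nat.land ((L 12 4)[p.1]) ((L 12 4)[p.2]))) := by
      unfold qd
      rw [List.getD_eq_getElem _ _ l1, List.getD_eq_getElem _ _ l2]
    obtain ⟨s1, s2⟩ := hsub ((L 12 4)[p.1]) ((L 12 4)[p.2])
    have hbne : insert 12 (ofMask ((L 12 4)[p.1])) ≠ insert 12 (ofMask ((L 12 4)[p.2])) := by
      intro h5
      have h6 : ofMask ((L 12 4)[p.1]) = ofMask ((L 12 4)[p.2]) := by
        rw [← erase_insert n1, h5, erase_insert n2]
      have r1 := rk_getElem (k := 4) (by norm_num : 12 ≤ 13) l1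
      have r2 := rk_getElem (k := 4) (by norm_num : 12 ≤ 13) l2
      rw [h6] at r1
      exact hne (r1.symm.trans r2)
    have hcnt : 2 ≤ cnt B (qd p) := by
      unfold cnt
      rw [← card_pair hbne]
      refine card_le_card fun b hb => ?_
      rw [mem_insert, mem_singleton] at hb
      rw [mem_filter, hqd]
      rcases hb with rfl | rfl
      · exact ⟨b1, insert_subset_insert _ s1⟩
      · exact ⟨b2, insert_subset_insert _ s2⟩
    unfold ex
    omega
  have h3 := Pool.Agent.Helper62.TY.T1E hX (E := (l.map qd).toFinset) (fun q h => (hq q h).1)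
    (fun q h => (hq q h).2)
  have h4 : wt (l.map qd).toFinset ≤ 1 := h3
  omega

end Pool.Agent.Helper13.TY
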