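import Pool.Agent.Helper13.TY.XConst

/-!
MP_8ee768_co, project TH-Y', stage X: from a dense code of `k`-subsets of ten points to the byte
word of the family: `x4`, `x3`, `x2`. One multiplication copies the code into the 32 slots of the
sets of high points, a mask keeps the block of each slot; one multiplication copies the first eight
members of each block into the 32 bytes of its slot, a mask keeps the right bit in each byte; the
same for the other two members; then every nonzero byte becomes 1.
-/

set_option autoImplicit false

namespace Pool.Agent.Helper13.TY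

/-- bytes to 0 or 1 -/
def nzb (Z : ℕ) : ℕ := Nat.land (Nat.shiftRight (Nat.add Z x127) 7) xOne

/-- the places -/
def plc (L H Y : ℕ) : ℕ :=
  Nat.lor (Nat.land (Nat.mul (Nat.land Y xB) xR) L)
    (Nat.land (Nat.mul (Nat.land (Nat.shiftRight Y 8) xB) xR) H)

/-- the expansion -/
def xpd (M K L H x : ℕ) : ℕ := nzb (plc L H (Nat.land (Nat.mul x M) K))

/-- quads -/
def x4 (x : ℕ) : ℕ := xpd xM4 xK4 xL4 xH4 x

/-- triples -/
def x3 (x : ℕ) : ℕ := xpd xM3 xK3 xL3 xH3 x

/-- pairs -/
def x2 (x : ℕ) : ℕ := xpd xM2 xK2 xL2 xH2 x

end Pool.Agent.Helper13.TY
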