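import Pool.Agent.Helper13.TY.XExpDef
import Pool.Agent.Helper81.TY.Lay10
import Pool.Agent.Helper97.CV.KillW

/-!
MP_8ee768_co, project TH-Y', stage X: correctness of the expansion. Everything before the last step
is linear for `|||` on the codes of the right length, so it is determined by its values on single
bits, which the kernel checks.
-/

set_option autoImplicit false

namespace Pool.Agent.Helper13.TY

open Finset
open Pool.Agent.Helper63.SIMD
open Pool.Agent.Helper79.CV
open Pool.Agent.Helper89.CV (ofMask)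

/-! ### sums without carries -/

theorem add_eq_or (a : ℕ) : ∀ b : ℕ, a &&& b = 0 → a + b = a ||| b := by
  induction a using Nat.strong_induction_on with
  | _ a ih =>
    intro b h
    rcases Nat.eq_zero_or_pos a with rfl | ha
    · rw [Nat.zero_add, Nat.zero_or]
    · have h1 : (a / 2) &&& (b / 2) = 0 := by
        rw [← Nat.and_div_two, h]
      have h2 : (a % 2) &&& (b % 2) = 0 := by
        have h3 := Nat.and_mod_two_pow (a := a) (b := b) (n := 1)
        rw [h, pow_one, Nat.zero_mod] at h3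
        exact h3.symm
      have h4 := ih (a / 2) (Nat.div_lt_self ha (by norm_num)) (b / 2) h1
      have h5 : (a ||| b) / 2 = a / 2 ||| b / 2 := Nat.or_div_two
      have h6 : (a ||| b) % 2 = a % 2 ||| b % 2 := by
        have h7 := Nat.or_mod_two_pow (a := a) (b := b) (n := 1)
        rwa [pow_one] at h7
      rw [← h5] at h4
      rcases Nat.mod_two_eq_zero_or_one a with ha2 | ha2
      · rw [ha2, Nat.zero_or] at h6
        omega
      · rcases Nat.mod_two_eq_zero_or_one b with hb2 | hb2
        · rw [ha2, hb2, Nat.or_zero] at h6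
          omega
        · rw [ha2, hb2] at h2
          exact absurd h2 (by decide)

/-- the bitwise or of the shifted copies -/
def orS (l : List ℕ) (x : ℕ) : ℕ := l.foldr (fun s a => (x <<< s) ||| a) 0

theorem orS_cons (s : ℕ) (l : List ℕ) (x : ℕ) : orS (s :: l) x = (x <<< s) ||| orS l x := rfl

/-- the shifted copies of `K` are disjoint -/
def disS (K : ℕ) : List ℕ → Bool
  | [] => true
  | s :: l => Nat.beq (Nat.land (Nat.shiftLeft K s) (orS l K)) 0 && disS K l

/-- `x` is inside the mask `K` -/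
def Ins (K x : ℕ) : Prop := x &&& K = x

theorem Ins.bit {K x : ℕ} (h : Ins K x) {i : ℕ} (hi : x.testBit i = true) :
    K.testBit i = true := by
  have h1 := congrArg (Nat.testBit · i) h
  beta_reduce at h1
  rw [Nat.testBit_and, hi, Bool.true_and] at h1
  exact h1

theorem ins_of_bit {K x : ℕ} (h : ∀ i, x.testBit i = true → K.testBit i = true) : Ins K x := by
  refine Nat.eq_of_testBit_eq fun i => ?_
  rw [Nat.testBit_and]
  cases hx : x.testBit i with
  | false => rfl
  | true => rw [h i hx]; rfl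

theorem Ins.or {K x y : ℕ} (hx : Ins K x) (hy : Ins K y) : Ins K (x ||| y) := by
  refine ins_of_bit fun i hi => ?_
  rw [Nat.testBit_or, Bool.or_eq_true] at hi
  rcases hi with h | h
  · exact hx.bit h
  · exact hy.bit h

theorem ins_and (K x : ℕ) : Ins K (x &&& K) := by
  unfold Ins
  rw [Nat.and_assoc, Nat.and_self]

theorem ins_orS {K x : ℕ} (h : Ins K x) (l : List ℕ) : Ins (orS l K) (orS l x) := by
  induction l with
  | nil => exact Nat.and_self 0
  | cons s l ih =>
    rw [orS_cons, orS_cons]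
    refine ins_of_bit fun i hi => ?_
    rw [Nat.testBit_or, Bool.or_eq_true] at hi ⊢
    rcases hi with h1 | h1
    · left
      rw [Nat.testBit_shiftLeft, Bool.and_eq_true] at h1 ⊢
      exact ⟨h1.1, h.bit h1.2⟩
    · exact Or.inr (ih.bit h1)

theorem and_zero_of_ins {K M x y : ℕ} (h : K &&& M = 0) (hx : Ins K x) (hy : Ins M y) :
    x &&& y = 0 := by
  refine Nat.eq_of_testBit_eq fun i => ?_
  rw [Nat.zero_testBit, Nat.testBit_and]
  cases h1 : x.testBit i with
  | false => rfl
  | true =>
    cases h2 : y.testBit i with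
    | false => rfl
    | true =>
      have h3 := congrArg (Nat.testBit · i) h
      beta_reduce at h3
      rw [Nat.testBit_and, hx.bit h1, hy.bit h2, Nat.zero_testBit] at h3
      exact h3

/-- multiplication by a sparse number without carries -/
theorem mul_eq_orS {K : ℕ} {l : List ℕ} (hd : disS K l = true) {x : ℕ} (hx : Ins K x) :
    x * (l.map fun s => 2 ^ s).sum = orS l x := by
  induction l with
  | nil => rfl
  | cons s l ih =>
    have hd' : (Nat.beq (Nat.land (Nat.shiftLeft K s) (orS l K)) 0 && disS K l) = true := hd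
    rw [Bool.and_eq_true] at hd'
    have h0 : (K <<< s) &&& (orS l K) = 0 := Nat.eq_of_beq_eq_true hd'.1
    have hs : Ins (K <<< s) (x <<< s) := by
      refine ins_of_bit fun i hi => ?_
      rw [Nat.testBit_shiftLeft, Bool.and_eq_true] at hi ⊢
      exact ⟨hi.1, hx.bit hi.2⟩
    rw [List.map_cons, List.sum_cons, mul_add, ih hd'.2, orS_cons, ← Nat.shiftLeft_eq]
    exact add_eq_or _ _ (and_zero_of_ins h0 hs (ins_orS hx l))

theorem orS_or (l : List ℕ) (x y : ℕ) : orS l (x ||| y) = orS l x ||| orS l y := by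
  induction l with
  | nil => exact (Nat.or_self 0).symm
  | cons s l ih =>
    rw [orS_cons, orS_cons, orS_cons, ih, Nat.shiftLeft_or_distrib]
    refine Nat.eq_of_testBit_eq fun i => ?_
    simp only [Nat.testBit_or]
    cases (x <<< s).testBit i <;> cases (y <<< s).testBit i <;> cases (orS l x).testBit i <;> rfl

theorem orS_zero (l : List ℕ) : orS l 0 = 0 := by
  induction l with
  | nil => rfl
  | cons s l ih => rw [orS_cons, ih, Nat.zero_shiftLeft, Nat.zero_or]

/-! ### linear programs -/

/-- linear for bitwise or, on the numbers inside `K` -/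
def LinOn (K : ℕ) (f : ℕ → ℕ) : Prop :=
  f 0 = 0 ∧ ∀ x y, Ins K x → Ins K y → f (x ||| y) = f x ||| f y

theorem linOn_mul {K M : ℕ} {l : List ℕ} (hM : M = (l.map fun s => 2 ^ s).sum)
    (hd : disS K l = true) : LinOn K (fun x => x * M) := by
  refine ⟨Nat.zero_mul _, fun x y hx hy => ?_⟩
  show (x ||| y) * M = x * M ||| y * M
  rw [hM, mul_eq_orS hd hx, mul_eq_orS hd hy, mul_eq_orS hd (hx.or hy), orS_or]

theorem LinOn.and {K : ℕ} {f : ℕ → ℕ} (h : LinOn K f) (M : ℕ) : LinOn K (fun x => f x &&& M) := by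
  refine ⟨?_, fun x y hx hy => ?_⟩
  · show f 0 &&& M = 0
    rw [h.1, Nat.zero_and]
  · show f (x ||| y) &&& M = (f x &&& M) ||| (f y &&& M)
    rw [h.2 x y hx hy, Nat.and_or_distrib_right]

theorem LinOn.shr {K : ℕ} {f : ℕ → ℕ} (h : LinOn K f) (n : ℕ) : LinOn K (fun x => f x >>> n) := by
  refine ⟨?_, fun x y hx hy => ?_⟩
  · show f 0 >>> n = 0
    rw [h.1, Nat.zero_shiftRight]
  · show f (x ||| y) >>> n = (f x >>> n) ||| (f y >>> n)
    rw [h.2 x y hx hy, Nat.shiftRight_or_distrib]

theorem LinOn.or {K : ℕ} {f g : ℕ → ℕ} (h : LinOn K f) (h' : LinOn K g) :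
    LinOn K (fun x => f x ||| g x) := by
  refine ⟨?_, fun x y hx hy => ?_⟩
  · show f 0 ||| g 0 = 0
    rw [h.1, h'.1]
    rfl
  · show f (x ||| y) ||| g (x ||| y) = (f x ||| g x) ||| (f y ||| g y)
    rw [h.2 x y hx hy, h'.2 x y hx hy]
    refine Nat.eq_of_testBit_eq fun i => ?_
    simp only [Nat.testBit_or]
    cases (f x).testBit i <;> cases (f y).testBit i <;> cases (g x).testBit i <;> rfl

theorem LinOn.comp {K K' : ℕ} {f g : ℕ → ℕ} (hf : LinOn K' f) (hg : LinOn K g)
    (hK : ∀ x, Ins K' (g x)) : LinOn K (fun x => f (g x)) := by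
  refine ⟨?_, fun x y hx hy => ?_⟩
  · show f (g 0) = 0
    rw [hg.1, hf.1]
  · show f (g (x ||| y)) = f (g x) ||| f (g y)
    rw [hg.2 x y hx hy, hf.2 _ _ (hK x) (hK y)]

theorem ins_of_lt {n x : ℕ} (h : x < 2 ^ n) : Ins (2 ^ n - 1) x := by
  unfold Ins
  rw [Nat.and_two_pow_sub_one_eq_mod, Nat.mod_eq_of_lt h]

/-- a linear program is determined by its values on single bits -/
theorem LinOn.testBit {N : ℕ} {f : ℕ → ℕ} (hf : LinOn (2 ^ N - 1) f) (q : ℕ) :
    ∀ (n x : ℕ), n ≤ N → x < 2 ^ n →
    ((f x).testBit q = true ↔ ∃ b < n, x.testBit b = true ∧ (f (2 ^ b)).testBit q = true) := by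
  intro n
  induction n with
  | zero =>
    intro x _ hx
    have h0 : x = 0 := by
      rw [pow_zero] at hx
      omega
    subst h0
    rw [hf.1]
    simp
  | succ n ih =>
    intro x hn hx
    have hmod : x % 2 ^ n < 2 ^ n := Nat.mod_lt _ (Nat.two_pow_pos n)
    have hsplit : x = (x % 2 ^ n) ||| (if x.testBit n = true then 2 ^ n else 0) := by
      refine Nat.eq_of_testBit_eq fun i => ?_
      rw [Nat.testBit_or, Nat.testBit_mod_two_pow]
      rcases lt_trichotomy i n with h | h | h
      · have h1 : (if x.testBit n = true then 2 ^ n else 0).testBit i = false := by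
          split_ifs
          · exact Nat.testBit_two_pow_of_ne (by omega)
          · exact Nat.zero_testBit i
        rw [h1]
        simp [h]
      · subst h
        by_cases h2 : x.testBit i = true
        · rw [if_pos h2, Nat.testBit_two_pow_self, h2]
          simp
        · rw [if_neg h2]
          simp only [Bool.not_eq_true] at h2
          simp [h2]
      · have h1 : (if x.testBit n = true then 2 ^ n else 0).testBit i = false := by
          split_ifs
          · exact Nat.testBit_two_pow_of_ne (by omega)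
          · exact Nat.zero_testBit i
        rw [h1, Nat.testBit_eq_false_of_lt (lt_of_lt_of_le hx (Nat.pow_le_pow_right
          (by norm_num) h))]
        simp [Nat.not_lt.2 h.le]
    have i1 : Ins (2 ^ N - 1) (x % 2 ^ n) :=
      ins_of_lt (lt_of_lt_of_le hmod (Nat.pow_le_pow_right (by norm_num) (by omega)))
    have i2 : Ins (2 ^ N - 1) (if x.testBit n = true then 2 ^ n else 0) := by
      refine ins_of_lt ?_
      split_ifs
      · exact Nat.pow_lt_pow_right (by norm_num) (by omega)
      · exact Nat.two_pow_pos N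
    have h3 : (f x).testBit q = ((f (x % 2 ^ n)).testBit q ||
        (f (if x.testBit n = true then 2 ^ n else 0)).testBit q) := by
      conv_lhs => rw [hsplit, hf.2 _ _ i1 i2, Nat.testBit_or]
    rw [h3, Bool.or_eq_true, ih _ (by omega) hmod]
    constructor
    · rintro (⟨b, hb, h4, h5⟩ | h4)
      · refine ⟨b, by omega, ?_, h5⟩
        rw [Nat.testBit_mod_two_pow] at h4
        simp only [Bool.and_eq_true] at h4
        exact h4.2
      · by_cases h2 : x.testBit n = true
        · rw [if_pos h2] at h4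
          exact ⟨n, by omega, h2, h4⟩
        · rw [if_neg h2, hf.1, Nat.zero_testBit] at h4
          exact absurd h4 Bool.false_ne_true
    · rintro ⟨b, hb, h4, h5⟩
      rcases Nat.lt_succ_iff_lt_or_eq.1 hb with h6 | h6
      · left
        refine ⟨b, h6, ?_, h5⟩
        rw [Nat.testBit_mod_two_pow]
        simp [h6, h4]
      · right
        subst h6
        rw [if_pos h4]
        exact h5

/-! ### the last step -/

theorem xOne_eq : xOne = pk 8 1024 (fun _ => 1) := by
  have h1 : xOne = rep 8 1024 := by decide +kernel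
  rw [h1, rep_eq (by norm_num)]

theorem x127_eq : x127 = pk 8 1024 (fun _ => 127) := by
  have h1 : x127 = 127 * rep 8 1024 := by decide +kernel
  rw [h1, mul_rep (by norm_num)]

/-- nonzero bytes become 1 -/
theorem nzb_eq {Z : ℕ} (hZ : Z < 2 ^ 8192) (h : ∀ j < 1024, fld 8 Z j ≤ 128) :
    nzb Z = pk 8 1024 (fun j => if fld 8 Z j = 0 then 0 else 1) := by
  have h1 : nzb Z = ((Z + x127) >>> 7) &&& xOne := rfl
  have h2 : Z = pk 8 1024 (fld 8 Z) := (pk_fld (W := 8) (N := 1024) hZ).symm
  have h3 : ∀ j < 1024, fld 8 Z j + 127 < 2 ^ 8 := fun j hj => by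
    have := h j hj
    omega
  have h4 : xOne = pk 8 1024 (fun _ => 2 ^ (8 - 7) - 1) := xOne_eq
  rw [h1, h4]
  conv_lhs => rw [h2]
  rw [x127_eq, pk_add, Pool.Agent.Helper97.CV.KillW.pk_shr_land (by norm_num) _ h3]
  refine pk_congr fun j hj => ?_
  have h5 := h j hj
  split_ifs with h6
  · rw [h6]
    norm_num
  · have : fld 8 Z j + 127 = 128 + (fld 8 Z j - 1) := by omega
    rw [this]
    have h7 : (128 + (fld 8 Z j - 1)) / 2 ^ 7 = 1 := by
      rw [show (2 : ℕ) ^ 7 = 128 by norm_num]
      omega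
    exact h7

/-! ### the expansion -/

/-- the shifts of `xR` -/
def lR : List ℕ := (List.range 32).map fun f => 8 * f

theorem xR_eq : xR = (lR.map fun s => 2 ^ s).sum := by decide +kernel

theorem disR : disS xB lR = true := by decide +kernel

theorem linOn_xR : LinOn xB (fun x => x * xR) := linOn_mul xR_eq disR

theorem LinOn.plc {K : ℕ} {f : ℕ → ℕ} (h : LinOn K f) (L H : ℕ) :
    LinOn K (fun x => plc L H (f x)) := by
  have h1 : LinOn K (fun x => ((f x &&& xB) * xR) &&& L) :=
    (linOn_xR.comp (h.and xB) fun x => ins_and xB _).and L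
  have h2 : LinOn K (fun x => (((f x >>> 8) &&& xB) * xR) &&& H) :=
    (linOn_xR.comp ((h.shr 8).and xB) fun x => ins_and xB _).and H
  exact h1.or h2

/-- the kernel check of an expansion: parameters and shifts -/
def chkX (k M K L H : ℕ) (l : List ℕ) : Bool :=
  Nat.beq M (l.map fun s => 2 ^ s).sum && (disS (2 ^ (Nat.choose 10 k) - 1) l &&
  (((List.range (Nat.choose 10 k)).all fun b => (fun z => !(Nat.beq z 0) && Nat.beq (Nat.land z
    (Nat.shiftLeft 255 (Nat.mul 8 ((Pool.Agent.Helper79.CV.L 10 k).getD b 0)))) z)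
    (plc L H (Nat.land (Nat.mul (Nat.pow 2 b) M) K))) &&
  ((List.range 1024).all (fun j => Nat.ble (fld 8 (Nat.lor L H) j) 128) &&
  Nat.ble (Nat.lor L H) (2 ^ 8192 - 1))))

theorem ofBit_ne {z : ℕ} (h : z ≠ 0) : ∃ i, z.testBit i = true := by
  by_contra hcon
  refine h (Nat.eq_of_testBit_eq fun i => ?_)
  rw [Nat.zero_testBit]
  by_contra h5
  exact hcon ⟨i, by simpa using h5⟩

theorem fld_ne_zero {Z j : ℕ} : fld 8 Z j ≠ 0 ↔ ∃ t < 8, Z.testBit (8 * j + t) = true := by
  constructor
  · intro h
    obtain ⟨t, ht⟩ := ofBit_ne h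
    rw [Pool.Agent.Helper91.TY.testBit_fld, Bool.and_eq_true, decide_eq_true_eq] at ht
    exact ⟨t, ht.1, ht.2⟩
  · rintro ⟨t, ht, h⟩ h0
    have h1 : (fld 8 Z j).testBit t = true := by
      rw [Pool.Agent.Helper91.TY.testBit_fld, decide_eq_true ht, h]
      rfl
    rw [h0, Nat.zero_testBit] at h1
    exact Bool.noConfusion h1

theorem xpd_bw {k M K L H : ℕ} {l : List ℕ} (hc : chkX k M K L H l = true) {x : ℕ}
    (hx : x < 2 ^ (Nat.choose 10 k)) :
    xpd M K L H x = Pool.Agent.Helper81.TY.bw
      (fun s => if s.card = k ∧ x.testBit (rk 10 k s) = true then 1 else 0) := by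
  unfold chkX at hc
  rw [Bool.and_eq_true, Bool.and_eq_true, Bool.and_eq_true, Bool.and_eq_true] at hc
  obtain ⟨c1, c2, c3, c4, c5⟩ := hc
  set n := Nat.choose 10 k with hn
  have hlen : (Pool.Agent.Helper79.CV.L 10 k).length = n := length_L 10 k
  have hM : M = (l.map fun s => 2 ^ s).sum := Nat.eq_of_beq_eq_true c1
  set f : ℕ → ℕ := fun x => plc L H ((x * M) &&& K) with hf
  have hlin : LinOn (2 ^ n - 1) f := ((linOn_mul hM c2).and K).plc L H
  have hins : ∀ x, Ins (L ||| H) (f x) := by
    intro x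
    have h1 : Ins L (((((x * M) &&& K) &&& xB) * xR) &&& L) := ins_and _ _
    have h2 : Ins H ((((((x * M) &&& K) >>> 8) &&& xB) * xR) &&& H) := ins_and _ _
    refine ins_of_bit fun i hi => ?_
    have hi' : ((((((x * M) &&& K) &&& xB) * xR) &&& L) |||
      ((((((x * M) &&& K) >>> 8) &&& xB) * xR) &&& H)).testBit i = true := hi
    rw [Nat.testBit_or, Bool.or_eq_true] at hi' ⊢
    rcases hi' with h | h
    · exact Or.inl (h1.bit h)
    · exact Or.inr (h2.bit h)
  have hLH : L ||| H < 2 ^ 8192 := by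
    have := Nat.le_of_ble_eq_true c5
    have h2 := Nat.two_pow_pos 8192
    show Nat.lor L H < 2 ^ 8192
    omega
  have hlt : f x < 2 ^ 8192 := by
    rw [← hins x]
    exact lt_of_le_of_lt Nat.and_le_right hLH
  have hfld : ∀ j < 1024, fld 8 (f x) j ≤ 128 := by
    intro j hj
    have h1 := List.all_eq_true.1 c4 j (List.mem_range.2 hj)
    have h2 : fld 8 (L ||| H) j ≤ 128 := Nat.le_of_ble_eq_true h1
    have h3 : fld 8 (f x) j = fld 8 (f x) j &&& fld 8 (L ||| H) j := by
      refine Nat.eq_of_testBit_eq fun t => ?_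
      rw [Nat.testBit_and, Pool.Agent.Helper91.TY.testBit_fld,
        Pool.Agent.Helper91.TY.testBit_fld]
      cases h4 : (f x).testBit (8 * j + t) with
      | false => simp
      | true =>
        rw [(hins x).bit h4]
        cases decide (t < 8) <;> rfl
    rw [h3]
    exact le_trans Nat.and_le_right h2
  have e1 : xpd M K L H x = nzb (f x) := rfl
  rw [e1, nzb_eq hlt hfld]
  refine pk_congr fun j hj => ?_
  show _ = if (ofMask j).card = k ∧ x.testBit (rk 10 k (ofMask j)) = true then 1 else 0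
  have hunit : ∀ b < n, ∀ t < 8, ∀ j, (f (2 ^ b)).testBit (8 * j + t) = true →
      (Pool.Agent.Helper79.CV.L 10 k).getD b 0 = j := by
    intro b hb t ht j hbit
    have h1 := List.all_eq_true.1 c3 b (List.mem_range.2 hb)
    rw [Bool.and_eq_true] at h1
    have h2 : (f (2 ^ b)) &&& (255 <<< (8 * (Pool.Agent.Helper79.CV.L 10 k).getD b 0)) =
      f (2 ^ b) := Nat.eq_of_beq_eq_true h1.2
    have h3 : Ins (255 <<< (8 * (Pool.Agent.Helper79.CV.L 10 k).getD b 0)) (f (2 ^ b)) := h2
    have h4 := h3.bit hbit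
    rw [Nat.testBit_shiftLeft, Bool.and_eq_true, decide_eq_true_eq,
      show (255 : ℕ) = 2 ^ 8 - 1 by norm_num, Nat.testBit_two_pow_sub_one,
      decide_eq_true_eq] at h4
    omega
  have hunit' : ∀ b < n, ∃ t < 8, (f (2 ^ b)).testBit
      (8 * (Pool.Agent.Helper79.CV.L 10 k).getD b 0 + t) = true := by
    intro b hb
    have h1 := List.all_eq_true.1 c3 b (List.mem_range.2 hb)
    rw [Bool.and_eq_true] at h1
    have h2 : f (2 ^ b) ≠ 0 := by
      intro h0
      have h5 : (!(Nat.beq (f (2 ^ b)) 0)) = true := h1.1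
      rw [h0] at h5
      exact absurd h5 (by decide)
    obtain ⟨i, hi⟩ := ofBit_ne h2
    have h3 : 8 * (i / 8) + i % 8 = i := Nat.div_add_mod i 8
    have h4 := hunit b hb (i % 8) (Nat.mod_lt i (by norm_num)) (i / 8) (by rw [h3]; exact hi)
    exact ⟨i % 8, Nat.mod_lt i (by norm_num), by rw [h4, h3]; exact hi⟩
  have hkey : fld 8 (f x) j ≠ 0 ↔
      (ofMask j).card = k ∧ x.testBit (rk 10 k (ofMask j)) = true := by
    rw [fld_ne_zero]
    constructor
    · rintro ⟨t, ht, h1⟩
      obtain ⟨b, hb, h2, h3⟩ := (hlin.testBit (8 * j + t) n x le_rfl hx).1 h1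
      have h4 := hunit b hb t ht j h3
      have hb' : b < (Pool.Agent.Helper79.CV.L 10 k).length := by rw [hlen]; exact hb
      rw [List.getD_eq_getElem _ _ hb'] at h4
      have h5 := ofMask_getElem_sub (k := k) (by norm_num : 10 ≤ 13) hb'
      have h6 := rk_getElem (k := k) (by norm_num : 10 ≤ 13) hb'
      rw [h4] at h5 h6
      exact ⟨h5.2, by rw [h6]; exact h2⟩
    · rintro ⟨h1, h2⟩
      have hs : Sub 10 k (ofMask j) := by
        refine ⟨?_, h1⟩
        rw [mk_ofMask (by omega)]
        exact hj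
      have hb' := rk_lt (by norm_num : 10 ≤ 13) hs
      have h3 := getElem_rk (by norm_num : 10 ≤ 13) hs
      rw [mk_ofMask (by omega : j < 2 ^ 13)] at h3
      have hb : rk 10 k (ofMask j) < n := by rw [← hlen]; exact hb'
      obtain ⟨t, ht, h4⟩ := hunit' _ hb
      rw [List.getD_eq_getElem _ _ hb', h3] at h4
      exact ⟨t, ht, (hlin.testBit _ n x le_rfl hx).2 ⟨_, hb, h2, h4⟩⟩
  by_cases h : (ofMask j).card = k ∧ x.testBit (rk 10 k (ofMask j)) = true
  · rw [if_pos h, if_neg (hkey.2 h)]
  · rw [if_neg h, if_pos]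
    by_contra h0
    exact h (hkey.1 h0)

/-- the shifts, quads -/
def l4 : List ℕ := [0, 251, 497, 743, 989, 1235, 1481, 1727, 1978, 2224, 2470, 2716, 2967, 3213,
  3464, 3715, 3970, 4216, 4462, 4708, 4959, 5205, 5456, 5707, 5962, 6208, 6459, 6710, 6965, 7216,
  7471]

theorem chk4 : chkX 4 xM4 xK4 xL4 xH4 l4 = true := by decide +kernel

/-- the shifts, triples -/
def l3 : List ℕ := [0, 246, 492, 738, 989, 1235, 1486, 1737, 1992, 2238, 2489, 2740, 2995, 3246,
  3501, 4012, 4258, 4509, 4760, 5015, 5266, 5521, 6032, 6283, 6538, 7049]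

theorem chk3 : chkX 3 xM3 xK3 xL3 xH3 l3 = true := by decide +kernel

/-- the shifts, pairs -/
def l2 : List ℕ := [0, 246, 497, 748, 1003, 1254, 1509, 2020, 2271, 2526, 3037, 4060, 4311, 4566,
  5077, 6100]

theorem chk2 : chkX 2 xM2 xK2 xL2 xH2 l2 = true := by decide +kernel

end Pool.Agent.Helper13.TY
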