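import Pool.Agent.Helper27.TY.XCls
import Pool.Agent.Helper79.CV.FCls
import Pool.Agent.Gen.TY.X.XN
import Pool.Agent.Gen.TY.X.Dead

/-!
MP_8ee768_co, project TH-Y', stage X: `StX` from the classification of the links and the root codes.
The codes of the list `XN.codes` are either dead by `XDeadC` or members of the list `alive`.
-/

set_option autoImplicit false

namespace Pool.Agent.Helper13.TY

open Pool.Agent.Helper79.CV (RootOK)
open Pool.Agent.Helper74.TY (XDead stX_of_codes)

/-- every member of the first list is the next member of one of the other two -/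
def mergeOK (cs : List ℕ) : List ℕ → List ℕ → Bool :=
  @List.rec ℕ (fun _ => List ℕ → List ℕ → Bool) (fun _ _ => true)
    (fun c _ ih ds as => @List.rec ℕ (fun _ => Bool)
      (@List.rec ℕ (fun _ => Bool) false (fun a as' _ => and (Nat.beq c a) (ih ds as')) as)
      (fun d ds' _ => @Bool.rec (fun _ => Bool)
        (@List.rec ℕ (fun _ => Bool) false (fun a as' _ => and (Nat.beq c a) (ih ds as')) as)
        (ih ds' as) (Nat.beq c d)) ds) cs

theorem mergeOK_sound {cs : List ℕ} : ∀ {ds as : List ℕ}, mergeOK cs ds as = true →
    ∀ c ∈ cs, c ∈ ds ∨ c ∈ as := by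
  induction cs with
  | nil => exact fun _ c hc => absurd hc List.not_mem_nil
  | cons c0 cs ih =>
    have key : ∀ (ds as : List ℕ), @List.rec ℕ (fun _ => Bool) false
        (fun a as' _ => and (Nat.beq c0 a) (mergeOK cs ds as')) as = true →
        ∀ c ∈ c0 :: cs, c ∈ ds ∨ c ∈ as := by
      intro ds as h c hc
      cases as with
      | nil => exact Bool.noConfusion h
      | cons a as' =>
        have h' : and (Nat.beq c0 a) (mergeOK cs ds as') = true := h
        rw [Bool.and_eq_true] at h'
        have h1 : c0 = a := Nat.eq_of_beq_eq_true h'.1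
        rcases List.mem_cons.1 hc with h2 | h2
        · exact Or.inr (by rw [h2, h1]; exact List.mem_cons_self)
        · rcases ih h'.2 c h2 with h3 | h3
          · exact Or.inl h3
          · exact Or.inr (List.mem_cons_of_mem _ h3)
    intro ds as h
    cases ds with
    | nil => exact key [] as h
    | cons d ds' =>
      have h' : @Bool.rec (fun _ => Bool)
        (@List.rec ℕ (fun _ => Bool) false
          (fun a as' _ => and (Nat.beq c0 a) (mergeOK cs (d :: ds') as')) as)
        (mergeOK cs ds' as) (Nat.beq c0 d) = true := h
      cases hb : Nat.beq c0 d with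
      | false =>
        rw [hb] at h'
        exact key (d :: ds') as h'
      | true =>
        rw [hb] at h'
        intro c hc
        have h1 : c0 = d := Nat.eq_of_beq_eq_true hb
        rcases List.mem_cons.1 hc with h2 | h2
        · exact Or.inl (by rw [h2, h1]; exact List.mem_cons_self)
        · rcases ih (show mergeOK cs ds' as = true from h') c h2 with h3 | h3
          · exact Or.inl (List.mem_cons_of_mem _ h3)
          · exact Or.inr h3

/-- **stage X** from the list of the codes which are not dead at once -/
theorem stX_of_alive (h6 : RootOK 6 (fun _ => True) Pool.Agent.Helper16.TY.reps)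
    {alive : List ℕ}
    (hm : mergeOK Pool.Agent.Gen.TY.X.XN.codes Pool.Agent.Gen.TY.X.Dead.codes alive = true)
    (hA : ∀ c ∈ alive, XDead c) : Pool.Agent.Helper4.CV.StX := by
  refine stX_of_codes (Pool.Agent.Helper27.TY.rootOK_X
    (Pool.Agent.Helper79.CV.clsOK_repsF h6)) Pool.Agent.Gen.TY.X.XN.xnorm fun c hc => ?_
  rcases mergeOK_sound hm c hc with h | h
  · exact Pool.Agent.Gen.TY.X.Dead.dead c h
  · exact hA c h

end Pool.Agent.Helper13.TY
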