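import Pool.Agent.Helper13.TY.XJoin
import Pool.Agent.Helper74.TY.XPair

/-!
MP_8ee768_co, project TH-Y', stage X: the joiner in helper74's form (`JSound 576 c`).
-/

set_option autoImplicit false

namespace Pool.Agent.Helper13.TY

open Pool.Agent.Helper63.SIMD
open Pool.Agent.Helper74.TY (frc frc_eq XVec Y8 rootA rootM JSound)
open Pool.Agent.Helper55.TY (RootDead)

/-! ### merging of chunks -/

/-- merge the first chunk with `p` if the sum of the lengths is at most `lim` -/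
def mrg1 (lim : ℕ) (p : ℕ × ℕ) (l : List (ℕ × ℕ)) : List (ℕ × ℕ) :=
  @List.rec (ℕ × ℕ) (fun _ => List (ℕ × ℕ)) [p]
    (fun q l' _ => @Bool.rec (fun _ => List (ℕ × ℕ)) (p :: q :: l')
      ((Nat.add p.1 q.1, Nat.lor (Nat.mod p.2 (Nat.pow 2 (Nat.mul 576 p.1)))
        (Nat.shiftLeft q.2 (Nat.mul 576 p.1))) :: l') (Nat.ble (Nat.add p.1 q.1) lim)) l

/-- merging of a list of chunks -/
def mrg (lim : ℕ) (l : List (ℕ × ℕ)) : List (ℕ × ℕ) :=
  @List.rec (ℕ × ℕ) (fun _ => List (ℕ × ℕ)) [] (fun p _ ih => mrg1 lim p ih) l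

/-- the value `v` is a lane of the list -/
def InL (L : List (ℕ × ℕ)) (v : ℕ) : Prop := ∃ p ∈ L, ∃ i < p.1, fld 576 p.2 i = v

theorem fld_mrg_low {n X Y i : ℕ} (hi : i < n) :
    fld 576 ((X % 2 ^ (576 * n)) ||| (Y <<< (576 * n))) i = fld 576 X i := by
  refine fld_ext fun t ht => ?_
  rw [Nat.testBit_or, Nat.testBit_mod_two_pow, Nat.testBit_shiftLeft,
    decide_eq_true (by omega : 576 * i + t < 576 * n),
    decide_eq_false (by omega : ¬ 576 * i + t ≥ 576 * n), Bool.true_and, Bool.false_and,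
    Bool.or_false]

theorem fld_mrg_high {n X Y i : ℕ} :
    fld 576 ((X % 2 ^ (576 * n)) ||| (Y <<< (576 * n))) (n + i) = fld 576 Y i := by
  refine fld_ext fun t ht => ?_
  rw [Nat.testBit_or, Nat.testBit_mod_two_pow, Nat.testBit_shiftLeft,
    decide_eq_false (by omega : ¬ 576 * (n + i) + t < 576 * n),
    decide_eq_true (by omega : 576 * (n + i) + t ≥ 576 * n), Bool.true_and, Bool.false_and,
    Bool.false_or]
  congr 1
  omega

theorem inL_mrg1 {lim : ℕ} {p : ℕ × ℕ} {l : List (ℕ × ℕ)} {v : ℕ}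
    (h : (∃ i < p.1, fld 576 p.2 i = v) ∨ InL l v) : InL (mrg1 lim p l) v := by
  cases l with
  | nil =>
    rcases h with h | ⟨q, hq, -⟩
    · exact ⟨p, List.mem_singleton_self _, h⟩
    · exact absurd hq List.not_mem_nil
  | cons q l' =>
    have e : mrg1 lim p (q :: l') = @Bool.rec (fun _ => List (ℕ × ℕ)) (p :: q :: l')
      ((p.1 + q.1, (p.2 % 2 ^ (576 * p.1)) ||| (q.2 <<< (576 * p.1))) :: l')
      (Nat.ble (p.1 + q.1) lim) := rfl
    rw [e]
    cases Nat.ble (p.1 + q.1) lim with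
    | false =>
      show InL (p :: q :: l') v
      rcases h with h | ⟨q', hq', h⟩
      · exact ⟨p, List.mem_cons_self, h⟩
      · exact ⟨q', List.mem_cons_of_mem _ hq', h⟩
    | true =>
      show InL ((p.1 + q.1, (p.2 % 2 ^ (576 * p.1)) ||| (q.2 <<< (576 * p.1))) :: l') v
      rcases h with ⟨i, hi, h⟩ | ⟨q', hq', i, hi, h⟩
      · exact ⟨_, List.mem_cons_self, i, by show i < p.1 + q.1; omega, by
          show fld 576 ((p.2 % 2 ^ (576 * p.1)) ||| (q.2 <<< (576 * p.1))) i = v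
          rw [fld_mrg_low hi, h]⟩
      · rcases List.mem_cons.1 hq' with rfl | hq'
        · exact ⟨_, List.mem_cons_self, p.1 + i, by show p.1 + i < p.1 + q'.1; omega, by
            show fld 576 ((p.2 % 2 ^ (576 * p.1)) ||| (q'.2 <<< (576 * p.1))) (p.1 + i) = v
            rw [fld_mrg_high, h]⟩
        · exact ⟨q', List.mem_cons_of_mem _ hq', i, hi, h⟩

theorem inL_mrg {lim : ℕ} {l : List (ℕ × ℕ)} {v : ℕ} (h : InL l v) : InL (mrg lim l) v := by
  induction l with
  | nil => exact h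
  | cons p l ih =>
    show InL (mrg1 lim p (mrg lim l)) v
    obtain ⟨q, hq, h⟩ := h
    rcases List.mem_cons.1 hq with rfl | hq
    · exact inL_mrg1 (Or.inl h)
    · exact inL_mrg1 (Or.inr (ih ⟨q, hq, h⟩))

/-! ### cutting of chunks -/

/-- pieces of `lim` lanes -/
def cut (lim : ℕ) (n : ℕ) : ℕ → ℕ → List (ℕ × ℕ) :=
  @Nat.rec (fun _ => ℕ → ℕ → List (ℕ × ℕ)) (fun N X => [(N, X)])
    (fun _ ih N X => @Bool.rec (fun _ => List (ℕ × ℕ))
      ((lim, Nat.mod X (Nat.pow 2 (Nat.mul 576 lim))) ::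
        ih (Nat.sub N lim) (Nat.shiftRight X (Nat.mul 576 lim))) [(N, X)] (Nat.ble N lim)) n

theorem inL_cut {lim : ℕ} {n : ℕ} : ∀ {N X v : ℕ}, (∃ i < N, fld 576 X i = v) →
    InL (cut lim n N X) v := by
  induction n with
  | zero =>
    intro N X v h
    exact ⟨_, List.mem_singleton_self _, h⟩
  | succ n ih =>
    intro N X v h
    have e : cut lim (n + 1) N X = @Bool.rec (fun _ => List (ℕ × ℕ))
      ((lim, X % 2 ^ (576 * lim)) :: cut lim n (N - lim) (X >>> (576 * lim))) [(N, X)]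
      (Nat.ble N lim) := rfl
    rw [e]
    cases Nat.ble N lim with
    | true => exact ⟨_, List.mem_singleton_self _, h⟩
    | false =>
      show InL ((lim, X % 2 ^ (576 * lim)) :: cut lim n (N - lim) (X >>> (576 * lim))) v
      obtain ⟨i, hi, hv⟩ := h
      by_cases hl : i < lim
      · refine ⟨_, List.mem_cons_self, i, hl, ?_⟩
        show fld 576 (X % 2 ^ (576 * lim)) i = v
        rw [← hv]
        refine fld_ext fun t ht => ?_
        rw [Nat.testBit_mod_two_pow, decide_eq_true (by omega : 576 * i + t < 576 * lim),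
          Bool.true_and]
      · obtain ⟨q, hq, h1⟩ := ih (N := N - lim) (X := X >>> (576 * lim)) (v := v)
          ⟨i - lim, by omega, by
            rw [← hv]
            refine fld_ext fun t ht => ?_
            rw [Nat.testBit_shiftRight]
            congr 1
            omega⟩
        exact ⟨q, List.mem_cons_of_mem _ hq, h1⟩

/-- all chunks are cut -/
def cuts (lim : ℕ) (l : List (ℕ × ℕ)) : List (ℕ × ℕ) := l.flatMap fun p => cut lim 200 p.1 p.2

theorem inL_cuts {lim : ℕ} {l : List (ℕ × ℕ)} {v : ℕ} (h : InL l v) : InL (cuts lim l) v := by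
  obtain ⟨p, hp, h⟩ := h
  obtain ⟨q, hq, h1⟩ := inL_cut (lim := lim) (n := 200) h
  exact ⟨q, List.mem_flatMap.2 ⟨p, hp, hq⟩, h1⟩

/-! ### the joiner -/

/-- the join of all lanes of `L1` and `L2` with equal tops: `L1` is cut into pieces of `lim1` lanes,
`L2` is merged and cut into pieces of `lim2` lanes -/
def xJ (lim1 lim2 : ℕ) (F : ℕ → ℕ → Bool) (L1 L2 : List (ℕ × ℕ)) : Bool :=
  (fun L => and (L.all fun q => Nat.ble q.1 65000) (xjoin F (cuts lim1 L1) L))
    (cuts lim2 (mrg lim2 L2))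

theorem xJ_sound {lim1 lim2 : ℕ} {F : ℕ → ℕ → Bool} {L1 L2 : List (ℕ × ℕ)}
    (h : xJ lim1 lim2 F L1 L2 = true) {e1 e2 : ℕ} (h1 : InL L1 e1) (h2 : InL L2 e2)
    (l1 : e1 < 2 ^ 330) (l2 : e2 < 2 ^ 330) (he : e1 >>> 210 = e2 >>> 210) : F e1 e2 = true := by
  have h' : and ((cuts lim2 (mrg lim2 L2)).all fun q => Nat.ble q.1 65000)
    (xjoin F (cuts lim1 L1) (cuts lim2 (mrg lim2 L2))) = true := h
  rw [Bool.and_eq_true] at h'
  obtain ⟨h3, h4⟩ := h'
  obtain ⟨p, hp, i, hi, hi'⟩ := inL_cuts (lim := lim1) h1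
  obtain ⟨q, hq, j, hj, hj'⟩ := inL_cuts (lim := lim2) (inL_mrg (lim := lim2) h2)
  have h5 : ∀ c ∈ cuts lim2 (mrg lim2 L2), c.1 ≤ 65000 := fun c hc =>
    Nat.le_of_ble_eq_true (List.all_eq_true.1 h3 c hc)
  have m1 : fld 576 p.2 i % 2 ^ 330 = e1 := by rw [hi', Nat.mod_eq_of_lt l1]
  have m2 : fld 576 q.2 j % 2 ^ 330 = e2 := by rw [hj', Nat.mod_eq_of_lt l2]
  have h6 := xjoin_sound h4 h5 hp hq hi hj (by rw [m1, m2]; exact he)
  rw [m1, m2] at h6
  exact h6

/-- helper74's form -/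
theorem jSound_xJ {lim1 lim2 c : ℕ} {F : ℕ → ℕ → Bool}
    (hF : ∀ e1 e2, e1 < 2 ^ 330 → e2 < 2 ^ 330 → e1 >>> 210 = e2 >>> 210 → F e1 e2 = true →
      RootDead (fun B => XVec B 12 Y8) (rootA c e1 e2) rootM) :
    JSound 576 c (xJ lim1 lim2 F) := by
  intro L1 L2 h p hp i hi q hq j hj l1 l2 he
  exact hF _ _ l1 l2 he (xJ_sound h ⟨p, hp, i, hi, rfl⟩ ⟨q, hq, j, hj, rfl⟩ l1 l2 he)

/-- the test function of a pair of lanes: killed by `xt` (`false` = killed) or by one of the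
certificates of the list -/
def xF (xt : ℕ → ℕ → Bool) (xu : ℕ → ℕ → ℕ → Bool) (ss : List ℕ) (e1 e2 : ℕ) : Bool :=
  @Bool.rec (fun _ => Bool) true
    (@List.rec ℕ (fun _ => Bool) false (fun s _ ih => @Bool.rec (fun _ => Bool) ih true (xu e1 e2 s))
      ss) (xt e1 e2)

theorem xF_cases {xt : ℕ → ℕ → Bool} {xu : ℕ → ℕ → ℕ → Bool} {ss : List ℕ} {e1 e2 : ℕ}
    (h : xF xt xu ss e1 e2 = true) : xt e1 e2 = false ∨ ∃ s ∈ ss, xu e1 e2 s = true := by
  unfold xF at h
  cases hx : xt e1 e2 with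
  | false => exact Or.inl rfl
  | true =>
    right
    rw [hx] at h
    clear hx
    induction ss with
    | nil => exact Bool.noConfusion h
    | cons s ss ih =>
      cases hs : xu e1 e2 s with
      | true => exact ⟨s, List.mem_cons_self, hs⟩
      | false =>
        have h' : @Bool.rec (fun _ => Bool)
          (@List.rec ℕ (fun _ => Bool) false
            (fun s _ ih => @Bool.rec (fun _ => Bool) ih true (xu e1 e2 s)) ss) true
          (xu e1 e2 s) = true := h
        rw [hs] at h'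
        obtain ⟨s', hs', h1⟩ := ih h'
        exact ⟨s', List.mem_cons_of_mem _ hs', h1⟩

end Pool.Agent.Helper13.TY
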