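import Pool.Agent.Helper74.TY.XExt

/-!
MP_8ee768_co, project TH-Y', stage X: join of two packed lists of lanes (stride 576, codes below
2 ^ 330) on the top 120 bits of the codes.

`keyN N X`: 14 bit keys (xor fold of the bits 210 .. 329) with bit 14 set, in the fields of `X`.
`comp`: the fields are moved to the stride 16: field `36 * s + r` is the lane `n0 * r + s`.
The loop runs over the keys of the first list; the zero fields of `K2 xor key * ones` are the hits.
-/

set_option autoImplicit false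

namespace Pool.Agent.Helper13.TY

open Pool.Agent.Helper63.SIMD
open Pool.Agent.Helper74.TY (frc frc_eq lowbit)

/-! ### fields and bits -/

theorem testBit_fld {W A i j : ℕ} (hj : j < W) : (fld W A i).testBit j = A.testBit (W * i + j) := by
  unfold fld
  rw [Nat.testBit_mod_two_pow, Nat.testBit_div_two_pow, decide_eq_true hj, Bool.true_and,
    Nat.add_comm]

theorem testBit_mul_rep {W m N i j : ℕ} (hW : 0 < W) (hm : m < 2 ^ W) (hj : j < W) :
    (m * rep W N).testBit (W * i + j) = (decide (i < N) && m.testBit j) := by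
  rw [mul_rep hW]
  by_cases hi : i < N
  · rw [← testBit_fld hj, fld_pk (fun _ _ => hm) hi, decide_eq_true hi, Bool.true_and]
  · rw [decide_eq_false hi, Bool.false_and]
    refine Nat.testBit_eq_false_of_lt (lt_of_lt_of_le (pk_lt fun _ _ => hm) ?_)
    refine Nat.pow_le_pow_right (by norm_num) ?_
    have := Nat.mul_le_mul_left W (not_lt.1 hi)
    omega

theorem fld_ext {W A B i j : ℕ} (h : ∀ t < W, A.testBit (W * i + t) = B.testBit (W * j + t)) :
    fld W A i = fld W B j := by
  refine Nat.eq_of_testBit_eq fun t => ?_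
  by_cases ht : t < W
  · rw [testBit_fld ht, testBit_fld ht, h t ht]
  · rw [Nat.testBit_eq_false_of_lt, Nat.testBit_eq_false_of_lt]
    · exact lt_of_lt_of_le fld_lt (Nat.pow_le_pow_right (by norm_num) (not_lt.1 ht))
    · exact lt_of_lt_of_le fld_lt (Nat.pow_le_pow_right (by norm_num) (not_lt.1 ht))

/-! ### keys -/

/-- the fold of the top bits -/
def fold3 (V : ℕ) : ℕ :=
  (fun V1 => (fun V2 => Nat.xor V2 (Nat.shiftRight V2 15)) (Nat.xor V1 (Nat.shiftRight V1 30)))
    (Nat.xor V (Nat.shiftRight V 60))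

/-- keys of all lanes, stride 576 -/
def keyN (N X : ℕ) : ℕ :=
  Nat.lor (Nat.land (fold3 (Nat.shiftRight X 210)) (Nat.mul 16383 (rep 576 N)))
    (Nat.mul 16384 (rep 576 N))

theorem fold3_testBit (V p : ℕ) : (fold3 V).testBit p =
    (((V.testBit p ^^ V.testBit (60 + p)) ^^ (V.testBit (30 + p) ^^ V.testBit (60 + (30 + p)))) ^^
    ((V.testBit (15 + p) ^^ V.testBit (60 + (15 + p))) ^^
      (V.testBit (30 + (15 + p)) ^^ V.testBit (60 + (30 + (15 + p)))))) := by
  show ((((V ^^^ (V >>> 60)) ^^^ ((V ^^^ (V >>> 60)) >>> 30)) ^^^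
    (((V ^^^ (V >>> 60)) ^^^ ((V ^^^ (V >>> 60)) >>> 30)) >>> 15))).testBit p = _
  simp only [Nat.testBit_xor, Nat.testBit_shiftRight]

theorem keyN_testBit {N X i j : ℕ} (hj : j < 576) : (keyN N X).testBit (576 * i + j) =
    (decide (i < N) && (decide (j = 14) ||
      (decide (j < 14) && (fold3 (X >>> 210)).testBit (576 * i + j)))) := by
  have e : keyN N X = ((fold3 (X >>> 210)) &&& (16383 * rep 576 N)) ||| (16384 * rep 576 N) := rfl
  rw [e, Nat.testBit_or, Nat.testBit_and, testBit_mul_rep (by norm_num)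
    (lt_of_lt_of_le (by norm_num : 16383 < 2 ^ 15)
      (Nat.pow_le_pow_right (by norm_num) (by norm_num))) hj,
    testBit_mul_rep (by norm_num) (lt_of_lt_of_le (by norm_num : 16384 < 2 ^ 15)
      (Nat.pow_le_pow_right (by norm_num) (by norm_num))) hj]
  have e1 : (16383 : ℕ).testBit j = decide (j < 14) := by
    have := Nat.testBit_two_pow_sub_one 14 j
    simpa using this
  have e2 : (16384 : ℕ).testBit j = decide (j = 14) := by
    have := @Nat.testBit_two_pow 14 j
    simpa [eq_comm] using this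
  rw [e1, e2]
  cases decide (i < N) <;> cases decide (j < 14) <;> cases decide (j = 14) <;>
    cases (fold3 (X >>> 210)).testBit (576 * i + j) <;> rfl

/-- equal top bits: equal keys -/
theorem keyN_eq {N X i N' X' i' : ℕ} (hi : i < N) (hi' : i' < N')
    (h : (fld 576 X i % 2 ^ 330) >>> 210 = (fld 576 X' i' % 2 ^ 330) >>> 210) :
    fld 576 (keyN N X) i = fld 576 (keyN N' X') i' := by
  have hb : ∀ t < 120, X.testBit (210 + (576 * i + t)) = X'.testBit (210 + (576 * i' + t)) := by
    intro t ht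
    have h1 := congrArg (fun v => v.testBit t) h
    simp only [Nat.testBit_shiftRight, Nat.testBit_mod_two_pow] at h1
    rw [testBit_fld (by omega), testBit_fld (by omega), decide_eq_true (by omega : 210 + t < 330),
      Bool.true_and, Bool.true_and] at h1
    rw [show 210 + (576 * i + t) = 576 * i + (210 + t) by ring,
      show 210 + (576 * i' + t) = 576 * i' + (210 + t) by ring]
    exact h1
  refine fld_ext fun j hj => ?_
  rw [keyN_testBit hj, keyN_testBit hj, decide_eq_true hi, decide_eq_true hi']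
  by_cases h14 : j < 14
  · have hc : ∀ c, c + 14 ≤ 120 → (X >>> 210).testBit (c + (576 * i + j)) =
        (X' >>> 210).testBit (c + (576 * i' + j)) := by
      intro c hc
      have h2 := hb (c + j) (by omega)
      rw [Nat.testBit_shiftRight, Nat.testBit_shiftRight,
        show 210 + (c + (576 * i + j)) = 210 + (576 * i + (c + j)) by ring,
        show 210 + (c + (576 * i' + j)) = 210 + (576 * i' + (c + j)) by ring]
      exact h2
    have e : ∀ c p p', c + 14 ≤ 120 → p = c + (576 * i + j) → p' = c + (576 * i' + j) →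
        (X >>> 210).testBit p = (X' >>> 210).testBit p' := by
      rintro c p p' h1 rfl rfl
      exact hc c h1
    rw [fold3_testBit, fold3_testBit,
      e 0 (576 * i + j) (576 * i' + j) (by norm_num) (by ring) (by ring),
      e 60 (60 + (576 * i + j)) (60 + (576 * i' + j)) (by norm_num) (by ring) (by ring),
      e 30 (30 + (576 * i + j)) (30 + (576 * i' + j)) (by norm_num) (by ring) (by ring),
      e 90 (60 + (30 + (576 * i + j))) (60 + (30 + (576 * i' + j))) (by norm_num) (by ring)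
        (by ring),
      e 15 (15 + (576 * i + j)) (15 + (576 * i' + j)) (by norm_num) (by ring) (by ring),
      e 75 (60 + (15 + (576 * i + j))) (60 + (15 + (576 * i' + j))) (by norm_num) (by ring)
        (by ring),
      e 45 (30 + (15 + (576 * i + j))) (30 + (15 + (576 * i' + j))) (by norm_num) (by ring)
        (by ring),
      e 105 (60 + (30 + (15 + (576 * i + j)))) (60 + (30 + (15 + (576 * i' + j)))) (by norm_num)
        (by ring) (by ring)]
  · rw [decide_eq_false h14, Bool.false_and, Bool.false_and]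

theorem keyN_lt {N X i : ℕ} : fld 576 (keyN N X) i < 2 ^ 15 := by
  refine Nat.lt_pow_two_of_testBit _ fun t ht => ?_
  by_cases h : t < 576
  · rw [testBit_fld h, keyN_testBit h, decide_eq_false (by omega : ¬ t = 14),
      decide_eq_false (by omega : ¬ t < 14), Bool.false_or, Bool.false_and, Bool.and_false]
  · exact Nat.testBit_eq_false_of_lt
      (lt_of_lt_of_le fld_lt (Nat.pow_le_pow_right (by norm_num) (not_lt.1 h)))

/-! ### compression to the stride 16 -/

/-- `s = 576 * n0`, `P = 2 ^ s` -/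
def comp (s P : ℕ) (n : ℕ) : ℕ → ℕ :=
  @Nat.rec (fun _ => ℕ → ℕ) (fun _ => 0)
    (fun _ ih K => Nat.lor (Nat.mod K P) (Nat.shiftLeft (ih (Nat.shiftRight K s)) 16)) n

theorem comp_succ (s P n K : ℕ) : comp s P (n + 1) K = (K % P) ||| (comp s P n (K >>> s)) <<< 16 :=
  rfl

theorem comp_testBit {n0 : ℕ} : ∀ {n : ℕ} {K : ℕ}, n ≤ 36 →
    (∀ i, fld 576 K i < 2 ^ 16) → ∀ {s r j : ℕ}, s < n0 → r < 36 → j < 16 →
    (comp (576 * n0) (2 ^ (576 * n0)) n K).testBit (576 * s + 16 * r + j) =
      (decide (r < n) && K.testBit (576 * (n0 * r + s) + j)) := by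
  intro n
  induction n with
  | zero =>
    intro K _ _ s r j _ _ _
    show (0 : ℕ).testBit _ = _
    rw [Nat.zero_testBit, decide_eq_false (by omega : ¬ r < 0), Bool.false_and]
  | succ n ih =>
    intro K hn hK s r j hs hr hj
    have hlo : ∀ i t, 16 ≤ t → t < 576 → K.testBit (576 * i + t) = false := by
      intro i t h1 h2
      rw [← testBit_fld h2]
      exact Nat.testBit_eq_false_of_lt (lt_of_lt_of_le (hK i)
        (Nat.pow_le_pow_right (by norm_num) h1))
    have hK' : ∀ i, fld 576 (K >>> (576 * n0)) i < 2 ^ 16 := by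
      intro i
      have e : fld 576 (K >>> (576 * n0)) i = fld 576 K (n0 + i) := by
        refine fld_ext fun t _ => ?_
        rw [Nat.testBit_shiftRight]
        congr 1
        ring
      rw [e]
      exact hK _
    have hlt : 576 * s + 16 * r + j < 576 * n0 := by omega
    rw [comp_succ, Nat.testBit_or, Nat.testBit_mod_two_pow, decide_eq_true hlt, Bool.true_and,
      Nat.testBit_shiftLeft]
    rcases Nat.eq_zero_or_pos r with h0 | h0
    · subst h0
      rw [Nat.mul_zero, Nat.mul_zero, Nat.zero_add, Nat.add_zero, decide_eq_true (Nat.succ_pos n),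
        Bool.true_and]
      rcases Nat.eq_zero_or_pos s with h1 | h1
      · subst h1
        rw [decide_eq_false (by omega : ¬ 16 ≤ 576 * 0 + j), Bool.false_and, Bool.or_false]
      · have e : 576 * s + j - 16 = 576 * (s - 1) + 16 * 35 + j := by omega
        rw [e, ih (by omega) hK' (by omega) (by norm_num) hj, decide_eq_false (by omega : ¬ 35 < n),
          Bool.false_and, Bool.and_false, Bool.or_false]
    · have e : 576 * s + 16 * r + j - 16 = 576 * s + 16 * (r - 1) + j := by omega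
      rw [e, ih (by omega) hK' hs (by omega) hj, Nat.testBit_shiftRight,
        show 576 * s + 16 * r + j = 576 * s + (16 * r + j) by ring,
        hlo s (16 * r + j) (by omega) (by omega), Bool.false_or,
        decide_eq_true (by omega : 16 ≤ 576 * s + (16 * r + j)), Bool.true_and]
      congr 1
      · rw [decide_eq_decide]
        omega
      · congr 1
        obtain ⟨r', rfl⟩ : ∃ r', r = r' + 1 := ⟨r - 1, by omega⟩
        rw [Nat.add_sub_cancel]
        ring

theorem fld_comp {n0 K : ℕ} (hK : ∀ i, fld 576 K i < 2 ^ 15) {s r : ℕ} (hs : s < n0)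
    (hr : r < 36) : fld 16 (comp (576 * n0) (2 ^ (576 * n0)) 36 K) (36 * s + r) =
      fld 576 K (n0 * r + s) := by
  have hK' : ∀ i, fld 576 K i < 2 ^ 16 := fun i => lt_of_lt_of_le (hK i)
    (Nat.pow_le_pow_right (by norm_num) (by norm_num))
  refine Nat.eq_of_testBit_eq fun t => ?_
  by_cases ht : t < 16
  · rw [testBit_fld ht, testBit_fld (by omega),
      show 16 * (36 * s + r) + t = 576 * s + 16 * r + t by ring,
      comp_testBit le_rfl hK' hs hr ht, decide_eq_true hr, Bool.true_and]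
  · rw [Nat.testBit_eq_false_of_lt (lt_of_lt_of_le fld_lt
      (Nat.pow_le_pow_right (by norm_num) (not_lt.1 ht))), Nat.testBit_eq_false_of_lt
      (lt_of_lt_of_le (hK' _) (Nat.pow_le_pow_right (by norm_num) (not_lt.1 ht)))]

theorem comp_lt {n0 K : ℕ} (hK : ∀ i, fld 576 K i < 2 ^ 15) {t : ℕ} :
    fld 16 (comp (576 * n0) (2 ^ (576 * n0)) 36 K) t < 2 ^ 15 ∨ 36 * n0 ≤ t := by
  by_cases h : t < 36 * n0
  · left
    have e : t = 36 * (t / 36) + t % 36 := (Nat.div_add_mod t 36).symm
    rw [e, fld_comp hK (Nat.div_lt_of_lt_mul h) (Nat.mod_lt _ (by norm_num))]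
    exact hK _
  · right
    omega

theorem keyN_ne {N X i : ℕ} (hi : i < N) : fld 576 (keyN N X) i ≠ 0 := by
  intro h
  have h1 : (fld 576 (keyN N X) i).testBit 14 = true := by
    rw [testBit_fld (by norm_num), keyN_testBit (by norm_num), decide_eq_true hi]
    rfl
  rw [h, Nat.zero_testBit] at h1
  exact Bool.noConfusion h1

/-! ### zero fields -/

/-- flags (bit `16 * k + 15`) of the fields of `K2` equal to `k1` -/
def zf (H R K2 k1 : ℕ) : ℕ := Nat.land (Nat.sub H (Nat.xor K2 (Nat.mul k1 R))) H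

theorem zf_testBit {n K2 k1 k : ℕ} (hK : K2 < 2 ^ (16 * n)) (hf : ∀ i < n, fld 16 K2 i < 2 ^ 15)
    (hk1 : k1 < 2 ^ 15) (hk : k < n) (h : fld 16 K2 k = k1) :
    (zf (Nat.mul 32768 (rep 16 n)) (rep 16 n) K2 k1).testBit (16 * k + 15) = true := by
  have e : zf (Nat.mul 32768 (rep 16 n)) (rep 16 n) K2 k1 =
      (32768 * rep 16 n - (K2 ^^^ (k1 * rep 16 n))) &&& (32768 * rep 16 n) := rfl
  rw [e]
  nth_rewrite 1 [← pk_fld hK]
  rw [mul_rep (by norm_num), mul_rep (by norm_num), pk_xor (fun _ _ => fld_lt)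
    (fun _ _ => lt_of_lt_of_le hk1 (by norm_num)), pk_sub, pk_land,
    ← testBit_fld (by norm_num : 15 < 16), fld_pk _ hk]
  · rw [h, Nat.xor_self]
    decide
  · intro i _
    exact lt_of_le_of_lt Nat.and_le_right (by norm_num)
  · intro i _
    exact lt_of_le_of_lt (Nat.sub_le _ _) (by norm_num)
  · intro i _
    norm_num
  · intro i hi
    exact le_of_lt (lt_of_lt_of_le (Nat.xor_lt_two_pow (hf i hi) hk1) (by norm_num))

/-! ### the hits -/

/-- index of the bit `2 ^ (16 * k)` -/
def idx (b : ℕ) : ℕ := Nat.mod (Nat.div (Nat.sub b 1) 65535) 65535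

theorem idx_eq {k : ℕ} (hk : k < 65535) : idx (2 ^ (16 * k)) = k := by
  have e : idx (2 ^ (16 * k)) = rep 16 k % 65535 := by
    have e1 : idx (2 ^ (16 * k)) = (2 ^ (16 * k) - 1) / 65535 % 65535 := rfl
    rw [e1]
    unfold rep
    norm_num
  have h : ∀ m, pk 16 m (fun _ => 1) % 65535 = m % 65535 := by
    intro m
    induction m with
    | zero => rw [pk_zero]
    | succ m ih =>
      rw [pk_succ, Nat.add_mod, ih, one_mul, pow_mul, Nat.pow_mod]
      norm_num
  rw [e, rep_eq (by norm_num), h, Nat.mod_eq_of_lt hk]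

/-- if then else for Booleans -/
def ite3 (c a b : Bool) : Bool := @Bool.rec (fun _ => Bool) b a c

theorem ite3_true (a b : Bool) : ite3 true a b = a := rfl
theorem ite3_false (a b : Bool) : ite3 false a b = b := rfl

/-- all bits `16 * k` of `z` -/
def hl (g : ℕ → Bool) (n : ℕ) : ℕ → Bool :=
  @Nat.rec (fun _ => ℕ → Bool) (fun _ => false)
    (fun _ ih z => @Bool.rec (fun _ => Bool)
      ((fun z' => @Bool.rec (fun _ => Bool) false (ih z') (frc (idx (Nat.xor z z')) g))
        (Nat.land z (Nat.sub z 1))) true (Nat.beq z 0)) n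

theorem hl_succ (g : ℕ → Bool) (n z : ℕ) : hl g (n + 1) z = ite3 (Nat.beq z 0) true
    (ite3 (g (idx (z ^^^ (z &&& (z - 1))))) (hl g n (z &&& (z - 1))) false) := by
  show ite3 (Nat.beq z 0) true (ite3 (frc (idx (Nat.xor z (Nat.land z (Nat.sub z 1)))) g) _ false) = _
  rw [frc_eq]
  rfl

theorem hl_sound {g : ℕ → Bool} : ∀ {n z : ℕ}, hl g n z = true → ∀ {k : ℕ}, k < 65535 →
    z.testBit (16 * k) = true → g k = true := by
  intro n
  induction n with
  | zero =>
    intro z h
    exact Bool.noConfusion h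
  | succ n ih =>
    intro z h k hk hz
    rw [hl_succ] at h
    have hne : z ≠ 0 := by
      rintro rfl
      rw [Nat.zero_testBit] at hz
      exact Bool.noConfusion hz
    have hb : Nat.beq z 0 = false := by
      rw [← Bool.not_eq_true]
      intro h1
      exact hne (Nat.eq_of_beq_eq_true h1)
    rw [hb, ite3_false] at h
    obtain ⟨t, -, h2, h3⟩ := lowbit hne
    rw [h2] at h
    cases hg : g (idx (2 ^ t)) with
    | false =>
      rw [hg, ite3_false] at h
      exact Bool.noConfusion h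
    | true =>
      rw [hg, ite3_true] at h
      by_cases ht : 16 * k = t
      · rw [← ht, idx_eq hk] at hg
        exact hg
      · exact ih h hk (h3 _ hz ht)

/-! ### the loop over the keys of the first chunk -/

/-- 32 lanes of `X` -/
def blk (X b : ℕ) : ℕ := Nat.mod (Nat.shiftRight X (Nat.mul 18432 b)) (Nat.pow 2 18432)

/-- forcing of a number, value in `ℕ` -/
def frn (v : ℕ) (f : ℕ → ℕ) : ℕ := @Nat.rec (fun _ => ℕ) (f 0) (fun n _ => f (Nat.succ n)) v

theorem frn_eq (v : ℕ) (f : ℕ → ℕ) : frn v f = f v := by cases v <;> rfl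

/-- the lane of the field `k` after compression -/
def lane (X n0 k : ℕ) : ℕ :=
  frn (Nat.add (Nat.mul n0 (Nat.mod k 36)) (Nat.div k 36)) fun p => frn (Nat.div p 32) fun b =>
    Nat.mod (Nat.shiftRight (blk X b) (Nat.mul 576 (Nat.mod p 32))) (Nat.pow 2 330)

theorem lane_eq {X n0 s r : ℕ} (hr : r < 36) :
    lane X n0 (36 * s + r) = fld 576 X (n0 * r + s) % 2 ^ 330 := by
  have e : lane X n0 (36 * s + r) = frn (n0 * ((36 * s + r) % 36) + (36 * s + r) / 36) fun p =>
      frn (p / 32) fun b => (blk X b >>> (576 * (p % 32))) % 2 ^ 330 := rfl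
  rw [e, frn_eq, frn_eq, Nat.mul_add_mod, Nat.mod_eq_of_lt hr, Nat.mul_add_div (by norm_num),
    Nat.div_eq_of_lt hr, Nat.add_zero]
  generalize n0 * r + s = p
  have e2 : blk X (p / 32) = (X >>> (18432 * (p / 32))) % 2 ^ 18432 := rfl
  have h32 : 32 * (p / 32) + p % 32 = p := Nat.div_add_mod p 32
  have hm : p % 32 < 32 := Nat.mod_lt p (by norm_num)
  rw [e2]
  refine Nat.eq_of_testBit_eq fun t => ?_
  rw [Nat.testBit_mod_two_pow, Nat.testBit_mod_two_pow, Nat.testBit_shiftRight,
    Nat.testBit_mod_two_pow, Nat.testBit_shiftRight]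
  by_cases ht : t < 330
  · have hj : t < 576 := by omega
    rw [testBit_fld hj, decide_eq_true ht, Bool.true_and, Bool.true_and,
      decide_eq_true (by omega : 576 * (p % 32) + t < 18432), Bool.true_and]
    congr 1
    omega
  · rw [decide_eq_false ht, Bool.false_and, Bool.false_and]

/-- key number `m` (counted from the end) -/
def kt (K1 T1 m : ℕ) : ℕ := Nat.mod (Nat.shiftRight K1 (Nat.mul 16 (Nat.sub T1 m))) 65536

def loop1 (F : ℕ → ℕ → Bool) (X1 n1 X2 n2 H R K1 K2 T1 n : ℕ) : Bool :=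
  @Nat.rec (fun _ => Bool) true
    (fun m ih => frc (kt K1 T1 m) fun k1 => @Bool.rec (fun _ => Bool)
      ((fun z => @Bool.rec (fun _ => Bool)
        (@Bool.rec (fun _ => Bool) false ih
          (hl (fun k2 => F (lane X1 n1 (Nat.sub T1 m)) (lane X2 n2 k2)) 65536
            (Nat.shiftRight z 15))) ih (Nat.beq z 0)) (zf H R K2 k1)) ih (Nat.beq k1 0)) n

theorem loop1_succ (F : ℕ → ℕ → Bool) (X1 n1 X2 n2 H R K1 K2 T1 n : ℕ) :
    loop1 F X1 n1 X2 n2 H R K1 K2 T1 (n + 1) =
    ite3 (Nat.beq (kt K1 T1 n) 0) (loop1 F X1 n1 X2 n2 H R K1 K2 T1 n)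
      (ite3 (Nat.beq (zf H R K2 (kt K1 T1 n)) 0) (loop1 F X1 n1 X2 n2 H R K1 K2 T1 n)
        (ite3 (hl (fun k2 => F (lane X1 n1 (T1 - n)) (lane X2 n2 k2)) 65536
          (zf H R K2 (kt K1 T1 n) >>> 15)) (loop1 F X1 n1 X2 n2 H R K1 K2 T1 n) false)) := by
  have e : loop1 F X1 n1 X2 n2 H R K1 K2 T1 (n + 1) = frc (kt K1 T1 n) fun k1 =>
    ite3 (Nat.beq k1 0) (loop1 F X1 n1 X2 n2 H R K1 K2 T1 n)
      (ite3 (Nat.beq (zf H R K2 k1) 0) (loop1 F X1 n1 X2 n2 H R K1 K2 T1 n)
        (ite3 (hl (fun k2 => F (lane X1 n1 (T1 - n)) (lane X2 n2 k2)) 65536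
          (zf H R K2 k1 >>> 15)) (loop1 F X1 n1 X2 n2 H R K1 K2 T1 n) false)) := rfl
  rw [e, frc_eq]

theorem kt_eq (K1 T1 m : ℕ) : kt K1 T1 m = fld 16 K1 (T1 - m) := by
  have e : kt K1 T1 m = (K1 >>> (16 * (T1 - m))) % 65536 := rfl
  rw [e, Nat.shiftRight_eq_div_pow]
  unfold fld
  norm_num

theorem loop1_sound {F : ℕ → ℕ → Bool} {X1 n1 X2 n2 H R K1 K2 T : ℕ} : ∀ {n : ℕ}, n ≤ T →
    loop1 F X1 n1 X2 n2 H R K1 K2 (T - 1) n = true → ∀ {t : ℕ}, T - n ≤ t → t < T →
    fld 16 K1 t ≠ 0 → ∀ {k2 : ℕ}, k2 < 65535 →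
    (zf H R K2 (fld 16 K1 t)).testBit (16 * k2 + 15) = true →
      F (lane X1 n1 t) (lane X2 n2 k2) = true := by
  intro n
  induction n with
  | zero =>
    intro _ _ t ht ht'
    omega
  | succ n ih =>
    intro hn h t ht ht' ht0 k2 hk2 hz
    rw [loop1_succ, kt_eq] at h
    by_cases h0 : t = T - 1 - n
    · subst h0
      have hb : Nat.beq (fld 16 K1 (T - 1 - n)) 0 = false := by
        rw [← Bool.not_eq_true]
        intro h1
        exact ht0 (Nat.eq_of_beq_eq_true h1)
      have hb2 : Nat.beq (zf H R K2 (fld 16 K1 (T - 1 - n))) 0 = false := by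
        rw [← Bool.not_eq_true]
        intro h1
        rw [Nat.eq_of_beq_eq_true h1, Nat.zero_testBit] at hz
        exact Bool.noConfusion hz
      rw [hb, ite3_false, hb2, ite3_false] at h
      cases hc : hl (fun k2 => F (lane X1 n1 (T - 1 - n)) (lane X2 n2 k2)) 65536
          (zf H R K2 (fld 16 K1 (T - 1 - n)) >>> 15) with
      | false =>
        rw [hc, ite3_false] at h
        exact Bool.noConfusion h
      | true =>
        refine hl_sound (g := fun k2 => F (lane X1 n1 (T - 1 - n)) (lane X2 n2 k2)) hc hk2 ?_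
        rw [Nat.testBit_shiftRight, Nat.add_comm]
        exact hz
    · have h2 : loop1 F X1 n1 X2 n2 H R K1 K2 (T - 1) n = true := by
        revert h
        cases Nat.beq (fld 16 K1 (T - 1 - n)) 0
        · rw [ite3_false]
          cases Nat.beq (zf H R K2 (fld 16 K1 (T - 1 - n))) 0
          · rw [ite3_false]
            cases hl (fun k2 => F (lane X1 n1 (T - 1 - n)) (lane X2 n2 k2)) 65536
              (zf H R K2 (fld 16 K1 (T - 1 - n)) >>> 15)
            · rw [ite3_false]
              exact fun h => Bool.noConfusion h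
            · exact id
          · exact id
        · exact id
      exact ih (by omega) h2 (by omega) ht' ht0 hk2 hz

/-! ### two chunks -/

/-- compressed keys of a chunk; `n0 = (N + 35) / 36` -/
def keyC (n0 N X : ℕ) : ℕ :=
  Nat.mod (comp (Nat.mul 576 n0) (Nat.pow 2 (Nat.mul 576 n0)) 36 (keyN N X))
    (Nat.pow 2 (Nat.mul 576 n0))

def nz (N : ℕ) : ℕ := Nat.div (Nat.add N 35) 36

theorem fld_keyC {n0 N X s r : ℕ} (hs : s < n0) (hr : r < 36) :
    fld 16 (keyC n0 N X) (36 * s + r) = fld 576 (keyN N X) (n0 * r + s) := by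
  rw [← fld_comp (fun _ => keyN_lt) hs hr]
  refine fld_ext fun j hj => ?_
  have e : keyC n0 N X = (comp (576 * n0) (2 ^ (576 * n0)) 36 (keyN N X)) % 2 ^ (576 * n0) := rfl
  rw [e, Nat.testBit_mod_two_pow, decide_eq_true (by omega), Bool.true_and]

theorem keyC_lt {n0 N X : ℕ} : keyC n0 N X < 2 ^ (16 * (36 * n0)) := by
  have e : 16 * (36 * n0) = 576 * n0 := by ring
  rw [e]
  exact Nat.mod_lt _ (Nat.two_pow_pos _)

theorem fld_keyC_lt {n0 N X k : ℕ} (hk : k < 36 * n0) : fld 16 (keyC n0 N X) k < 2 ^ 15 := by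
  have e : k = 36 * (k / 36) + k % 36 := (Nat.div_add_mod k 36).symm
  rw [e, fld_keyC (Nat.div_lt_of_lt_mul hk) (Nat.mod_lt _ (by norm_num))]
  exact keyN_lt

/-- all pairs of a lane of `X1` (`N1` lanes) and a lane of `X2` (`N2` lanes) with equal tops -/
def xj2 (F : ℕ → ℕ → Bool) (N2 X2 : ℕ) (κ : (ℕ → ℕ → Bool) → Bool) : Bool :=
  frc (nz N2) fun n2 => frc (rep 16 (Nat.mul 36 n2)) fun R => frc (Nat.mul 32768 R) fun H =>
    frc (keyC n2 N2 X2) fun K2 => κ fun N1 X1 =>
      frc (nz N1) fun n1 => frc (keyC n1 N1 X1) fun K1 =>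
        frc (Nat.mul 36 n1) fun T => loop1 F X1 n1 X2 n2 H R K1 K2 (Nat.sub T 1) T

/-- the join of two lists of chunks `(N, X)` -/
def xjoin (F : ℕ → ℕ → Bool) (L1 L2 : List (ℕ × ℕ)) : Bool :=
  L2.all fun c2 => frc c2.2 fun X2 => xj2 F c2.1 X2 fun f =>
    L1.all fun c1 => frc c1.2 fun X1 => f c1.1 X1

theorem nz_spec {N i : ℕ} (hi : i < N) : i / nz N < 36 ∧ i % nz N < nz N := by
  have e : nz N = (N + 35) / 36 := rfl
  have h0 : 0 < nz N := by rw [e]; omega
  refine ⟨Nat.div_lt_of_lt_mul ?_, Nat.mod_lt _ h0⟩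
  rw [e]
  omega

/-- **soundness of the join** -/
theorem xjoin_sound {F : ℕ → ℕ → Bool} {L1 L2 : List (ℕ × ℕ)} (h : xjoin F L1 L2 = true)
    (h2 : ∀ c ∈ L2, c.1 ≤ 65000) {c1 c2 : ℕ × ℕ} (hc1 : c1 ∈ L1) (hc2 : c2 ∈ L2) {i1 i2 : ℕ}
    (hi1 : i1 < c1.1) (hi2 : i2 < c2.1)
    (he : (fld 576 c1.2 i1 % 2 ^ 330) >>> 210 = (fld 576 c2.2 i2 % 2 ^ 330) >>> 210) :
    F (fld 576 c1.2 i1 % 2 ^ 330) (fld 576 c2.2 i2 % 2 ^ 330) = true := by
  obtain ⟨N1, X1⟩ := c1
  obtain ⟨N2, X2⟩ := c2
  have h3 := List.all_eq_true.1 h _ hc2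
  simp only [frc_eq, xj2] at h3
  have h4 := List.all_eq_true.1 h3 _ hc1
  simp only at h4
  have hN2 := h2 _ hc2
  simp only at hi1 hi2 he hN2 ⊢
  obtain ⟨hr1, hs1⟩ := nz_spec hi1
  obtain ⟨hr2, hs2⟩ := nz_spec hi2
  have e1 : nz N1 * (i1 / nz N1) + i1 % nz N1 = i1 := Nat.div_add_mod _ _
  have e2 : nz N2 * (i2 / nz N2) + i2 % nz N2 = i2 := Nat.div_add_mod _ _
  have hk1 : 36 * (i1 % nz N1) + i1 / nz N1 < 36 * nz N1 := by omega
  have hk2 : 36 * (i2 % nz N2) + i2 / nz N2 < 36 * nz N2 := by omega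
  have hn2 : 36 * nz N2 < 65535 + 1 := by
    have e : nz N2 = (N2 + 35) / 36 := rfl
    rw [e]
    omega
  have hf1 : fld 16 (keyC (nz N1) N1 X1) (36 * (i1 % nz N1) + i1 / nz N1) =
      fld 576 (keyN N1 X1) i1 := by
    rw [fld_keyC hs1 hr1, e1]
  have hf2 : fld 16 (keyC (nz N2) N2 X2) (36 * (i2 % nz N2) + i2 / nz N2) =
      fld 576 (keyN N2 X2) i2 := by
    rw [fld_keyC hs2 hr2, e2]
  have hkey := keyN_eq hi1 hi2 he
  have h5 := loop1_sound (T := 36 * nz N1) le_rfl h4 (t := 36 * (i1 % nz N1) + i1 / nz N1)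
    (by rw [Nat.sub_self]; exact Nat.zero_le _) hk1 (by
    rw [hf1]
    exact keyN_ne hi1) (k2 := 36 * (i2 % nz N2) + i2 / nz N2) (by omega) (by
    rw [hf1]
    exact zf_testBit keyC_lt (fun i hi => fld_keyC_lt hi) keyN_lt hk2 (by rw [hf2, hkey]))
  rw [lane_eq hr1, lane_eq hr2, e1, e2] at h5
  exact h5

end Pool.Agent.Helper13.TY
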