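import Pool.Agent.Helper28.TY.PairEq

/-!
MP_8ee768_co, project TH-Y': the pair word of the blocks meeting `{10, 11, 12}` by counting blocks:
`Lam (KB B) s = sum over the outside quads of (lk + maj) + 3 (N2 / 2) - 12`, where `N2` is the
number of the blocks through `s` with at least two points of `K3`.
-/

set_option autoImplicit false

namespace Pool.Agent.Helper13.TY

open Finset
open Pool.Agent.Helper89.CV (OddCover)
open Pool.Agent.Helper97.CV
open Pool.Agent.Helper28.TY (KB mem_KB K3 lk cnt_KB cnt_KB_meet mem_K3 not_subset_R10)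
open Pool.Agent.Helper81.TY (R10 mem_R10 Fam10 sum_inside sup_count10)
open Pool.Agent.Helper33.TY (ind)

/-- the sets outside `K3` which form a block with `J` -/
def FJ (B : Finset (Finset (Fin 13))) (J : Finset (Fin 13)) : Finset (Finset (Fin 13)) :=
  R10.powerset.filter fun r => r ∪ J ∈ B

theorem mem_FJ {B : Finset (Finset (Fin 13))} {J r : Finset (Fin 13)} :
    r ∈ FJ B J ↔ r ⊆ R10 ∧ r ∪ J ∈ B := by
  unfold FJ
  rw [mem_filter, mem_powerset]

theorem disj_R10 {r J : Finset (Fin 13)} (hr : r ⊆ R10) (hJ : J ⊆ K3) : Disjoint r J := by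
  rw [disjoint_left]
  intro v h1 h2
  have h3 := mem_R10.1 (hr h1)
  have h4 := mem_K3.1 (hJ h2)
  omega

theorem fam_FJ {B : Finset (Finset (Fin 13))} (hB : ∀ b ∈ B, b.card = 5) {J : Finset (Fin 13)}
    (hJ : J ⊆ K3) {k : ℕ} (hk : J.card + k = 5) : Fam10 k (FJ B J) := by
  intro r hr
  rw [mem_FJ] at hr
  refine ⟨hr.1, ?_⟩
  have h1 := hB _ hr.2
  rw [card_union_of_disjoint (disj_R10 hr.1 hJ)] at h1
  omega

theorem cnt_FJ {B : Finset (Finset (Fin 13))} {J s : Finset (Fin 13)} (hJ : J ⊆ K3)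
    (hs : s ⊆ R10) : cnt (FJ B J) s = (B.filter fun b => s ⊆ b ∧ b ∩ K3 = J).card := by
  have hRK : ∀ v : Fin 13, v ∈ R10 → v ∉ K3 := by
    intro v h1 h2
    have h3 := mem_R10.1 h1
    have h4 := mem_K3.1 h2
    omega
  unfold cnt
  refine card_bij' (fun r _ => r ∪ J) (fun b _ => b \ K3) ?_ ?_ ?_ ?_
  · intro r hr
    rw [mem_filter, mem_FJ] at hr
    rw [mem_filter]
    refine ⟨hr.1.2, hr.2.trans subset_union_left, ?_⟩
    ext v
    rw [mem_inter, mem_union]
    constructor
    · rintro ⟨h1 | h1, h2⟩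
      · exact absurd h2 (hRK v (hr.1.1 h1))
      · exact h1
    · intro h
      exact ⟨Or.inr h, hJ h⟩
  · intro b hb
    rw [mem_filter] at hb
    rw [mem_filter, mem_FJ]
    refine ⟨⟨?_, ?_⟩, ?_⟩
    · intro v hv
      rw [mem_sdiff, mem_K3] at hv
      rw [mem_R10]
      omega
    · rw [← hb.2.2, sdiff_union_inter]
      exact hb.1
    · intro v hv
      rw [mem_sdiff]
      exact ⟨hb.2.1 hv, hRK v (hs hv)⟩
  · intro r hr
    rw [mem_filter, mem_FJ] at hr
    show (r ∪ J) \ K3 = r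
    ext v
    rw [mem_sdiff, mem_union]
    constructor
    · rintro ⟨h1 | h1, h2⟩
      · exact h1
      · exact absurd (hJ h1) h2
    · intro h
      exact ⟨Or.inl h, hRK v (hr.1.1 h)⟩
  · intro b hb
    rw [mem_filter] at hb
    show b \ K3 ∪ J = b
    rw [← hb.2.2, sdiff_union_inter]

/-- the blocks meeting `K3` by their intersection with `K3` -/
theorem cnt_KB_split (B : Finset (Finset (Fin 13))) {s : Finset (Fin 13)} (hs : s ⊆ R10) :
    cnt (KB B) s = (cnt (FJ B {12}) s + cnt (FJ B {11}) s + cnt (FJ B {10}) s) +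
      (cnt (FJ B {10, 12}) s + cnt (FJ B {11, 12}) s + cnt (FJ B {10, 11, 12}) s +
        cnt (FJ B {10, 11}) s) := by
  have h1 : cnt (KB B) s = ∑ J ∈ K3.powerset.erase ∅, cnt (FJ B J) s := by
    have h2 : ∀ b ∈ (KB B).filter (fun b => s ⊆ b), b ∩ K3 ∈ K3.powerset.erase ∅ := by
      intro b hb
      rw [mem_filter, mem_KB] at hb
      rw [mem_erase, mem_powerset]
      refine ⟨?_, inter_subset_right⟩
      obtain ⟨v, hv, hvK⟩ := not_subset_R10.1 hb.1.2
      intro h
      have h3 : v ∈ b ∩ K3 := mem_inter.2 ⟨hv, hvK⟩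
      rw [h] at h3
      exact absurd h3 (notMem_empty v)
    have h4 : cnt (KB B) s = ((KB B).filter (fun b => s ⊆ b)).card := rfl
    rw [h4, card_eq_sum_card_fiberwise h2]
    refine sum_congr rfl fun J hJ => ?_
    rw [mem_erase, mem_powerset] at hJ
    rw [cnt_FJ hJ.2 hs, filter_filter]
    congr 1
    ext b
    rw [mem_filter, mem_filter, mem_KB]
    constructor
    · rintro ⟨h5, h6, h7⟩
      exact ⟨h5.1, h6, h7⟩
    · rintro ⟨h5, h6, h7⟩
      refine ⟨⟨h5, ?_⟩, h6, h7⟩
      obtain ⟨v, hv⟩ := nonempty_iff_ne_empty.2 hJ.1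
      rw [← h7, mem_inter] at hv
      exact not_subset_R10.2 ⟨v, hv.1, hv.2⟩
  have h5 : K3.powerset.erase ∅ =
      {{12}, {11}, {10}, {10, 12}, {11, 12}, {10, 11, 12}, {10, 11}} := by decide
  rw [h1, h5, sum_insert (by decide), sum_insert (by decide), sum_insert (by decide),
    sum_insert (by decide), sum_insert (by decide), sum_insert (by decide), sum_singleton]
  ring

/-! ### sums over quads -/

theorem LamW_cnt {D : Finset (Finset (Fin 13))} (hD : ∀ b ∈ D, b.card = 5)
    {s : Finset (Fin 13)} (hs : s.card = 2) : LamW (cnt D) s = 3 * cnt D s := by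
  have hrec : ∀ t : Finset (Fin 13), ∑ v ∈ tᶜ, cnt D (insert v t) = (5 - t.card) * cnt D t := by
    intro t
    have h := double_count D 5 hD (fun _ => 1) t
    simpa only [cnt, card_eq_sum_ones] using h
  have h3 : ∀ t : Finset (Fin 13), t.card = 3 → LamW (cnt D) t = 2 * cnt D t := by
    intro t ht
    have h1 := LamW_rec (cnt D) t
    have h2 : ∀ v ∈ tᶜ, LamW (cnt D) (insert v t) = cnt D (insert v t) := by
      intro v hv
      exact LamW_quad _ (by rw [card_insert_of_notMem (mem_compl.1 hv), ht])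
    rw [sum_congr rfl h2, hrec, ht] at h1
    omega
  have h1 := LamW_rec (cnt D) s
  have h2 : ∀ v ∈ sᶜ, LamW (cnt D) (insert v s) = 2 * cnt D (insert v s) := by
    intro v hv
    exact h3 _ (by rw [card_insert_of_notMem (mem_compl.1 hv), hs])
  rw [sum_congr rfl h2, ← mul_sum, hrec, hs] at h1
  omega

theorem LamW_one {s : Finset (Fin 13)} (hs : s.card = 2) : LamW (fun _ => 1) s = 55 := by
  have h3 : ∀ t : Finset (Fin 13), t.card = 3 → LamW (fun _ => 1) t = 10 := by
    intro t ht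
    have h1 := LamW_rec (fun _ => 1) t
    have h2 : ∀ v ∈ tᶜ, LamW (fun _ => 1) (insert v t) = 1 := by
      intro v hv
      exact LamW_quad _ (by rw [card_insert_of_notMem (mem_compl.1 hv), ht])
    rw [sum_congr rfl h2, sum_const, card_compl13 ht, ht] at h1
    simp only [smul_eq_mul] at h1
    omega
  have h1 := LamW_rec (fun _ => 1) s
  have h2 : ∀ v ∈ sᶜ, LamW (fun _ => 1) (insert v s) = 10 := by
    intro v hv
    exact h3 _ (by rw [card_insert_of_notMem (mem_compl.1 hv), hs])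
  rw [sum_congr rfl h2, sum_const, card_compl13 hs, hs] at h1
  simp only [smul_eq_mul] at h1
  omega

theorem card_inside {s : Finset (Fin 13)} (hs : s ⊆ R10) (h2 : s.card = 2) :
    (quads.filter fun q => s ⊆ q ∧ q ⊆ R10).card = 28 := by
  have h := sum_inside hs h2 (fun _ => 1)
  rw [← card_eq_sum_ones, ← card_eq_sum_ones] at h
  rw [h]
  have h3 : (R10.powersetCard 2).filter (Disjoint s) = (R10 \ s).powersetCard 2 := by
    ext t
    rw [mem_filter, mem_powersetCard, mem_powersetCard, subset_sdiff]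
    exact ⟨fun h => ⟨⟨h.1.1, h.2.symm⟩, h.1.2⟩, fun h => ⟨⟨h.1.1, h.2⟩, h.1.2.symm⟩⟩
  have h4 : (R10 \ s).card = 8 := Pool.Agent.Helper28.TY.card_R10_sdiff hs h2
  rw [h3, card_powersetCard, h4]
  decide

/-- THE PAIR WORD by counting blocks -/
theorem two_Lam_KB {B : Finset (Finset (Fin 13))} (hB : OddCover B) {s : Finset (Fin 13)}
    (hs : s ⊆ R10) (h2 : s.card = 2) :
    2 * Lam (KB B) s + (∑ t ∈ (R10.powersetCard 2).filter (Disjoint s), lk B (s ∪ t) % 2) + 27 =
      3 * cnt (KB B) s := by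
  have hD : ∀ b ∈ KB B, b.card = 5 := fun b hb => hB.1 b (mem_KB.1 hb).1
  have e1 : LamW (cnt (KB B)) s = 2 * Lam (KB B) s + LamW (fun q => cnt (KB B) q % 2) s := by
    unfold Lam LamW
    rw [mul_sum, ← sum_add_distrib]
    refine sum_congr rfl fun q _ => ?_
    unfold ex
    omega
  have hsplit : ∀ f : Finset (Fin 13) → ℕ, LamW f s =
      ∑ q ∈ quads.filter (fun q => s ⊆ q ∧ q ⊆ R10), f q +
      ∑ q ∈ quads.filter (fun q => s ⊆ q ∧ ¬ q ⊆ R10), f q := by
    intro f
    unfold LamW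
    rw [← filter_filter, ← filter_filter]
    exact (sum_filter_add_sum_filter_not _ _ _).symm
  have e2 : LamW (fun q => cnt (KB B) q % 2) s =
      (∑ t ∈ (R10.powersetCard 2).filter (Disjoint s), lk B (s ∪ t) % 2) + 27 := by
    rw [hsplit]
    congr 1
    · rw [sum_inside hs h2]
      refine sum_congr rfl fun t ht => ?_
      rw [mem_filter, mem_powersetCard] at ht
      rw [cnt_KB hB.1 (by rw [card_union_of_disjoint ht.2, h2, ht.1.2])
        (union_subset hs ht.1.1)]
    · have h3 := hsplit (fun _ => 1)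
      rw [LamW_one h2, ← card_eq_sum_ones, ← card_eq_sum_ones, card_inside hs h2] at h3
      have h4 : ∑ q ∈ quads.filter (fun q => s ⊆ q ∧ ¬ q ⊆ R10), cnt (KB B) q % 2 =
          (quads.filter fun q => s ⊆ q ∧ ¬ q ⊆ R10).card := by
        rw [card_eq_sum_ones]
        refine sum_congr rfl fun q hq => ?_
        rw [mem_filter, mem_quads] at hq
        rw [cnt_KB_meet B hq.2.2, cnt_quad hB hq.1]
        omega
      rw [h4]
      omega
  rw [← LamW_cnt hD h2, e1, e2]
  ring

theorem lk_FJ (B : Finset (Finset (Fin 13))) {q : Finset (Fin 13)} (hq : q ⊆ R10) :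
    lk B q = ind (FJ B {12}) q + ind (FJ B {11}) q + ind (FJ B {10}) q := by
  have h : ∀ k : Fin 13, k ∈ K3 → (q ∈ link B k ↔ q ∈ FJ B {k}) := by
    intro k hk
    have hkq : k ∉ q := by
      intro h
      have h3 := mem_R10.1 (hq h)
      have h4 := mem_K3.1 hk
      omega
    rw [mem_link, mem_FJ, union_comm, ← insert_eq]
    exact ⟨fun h => ⟨hq, h.2⟩, fun h => ⟨hkq, h.2⟩⟩
  unfold lk ind
  simp only [h 12 (by decide), h 11 (by decide), h 10 (by decide)]

/-- number of the blocks through `s` with at least two points of `K3` -/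
def N2 (B : Finset (Finset (Fin 13))) (s : Finset (Fin 13)) : ℕ :=
  cnt (FJ B {10, 12}) s + cnt (FJ B {11, 12}) s + cnt (FJ B {10, 11, 12}) s +
    cnt (FJ B {10, 11}) s

theorem sum_lk {B : Finset (Finset (Fin 13))} (hB : OddCover B) {s : Finset (Fin 13)}
    (hs : s ⊆ R10) (h2 : s.card = 2) :
    ∑ t ∈ (R10.powersetCard 2).filter (Disjoint s), lk B (s ∪ t) =
      cnt (FJ B {12}) s + cnt (FJ B {11}) s + cnt (FJ B {10}) s := by
  have h : ∀ t ∈ (R10.powersetCard 2).filter (Disjoint s), lk B (s ∪ t) =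
      ind (FJ B {12}) (s ∪ t) + ind (FJ B {11}) (s ∪ t) + ind (FJ B {10}) (s ∪ t) := by
    intro t ht
    rw [mem_filter, mem_powersetCard] at ht
    exact lk_FJ B (union_subset hs ht.1.1)
  have hF : ∀ k : Fin 13, k ∈ K3 → Fam10 (2 + 2) (FJ B {k}) := fun k hk =>
    fam_FJ hB.1 (singleton_subset_iff.2 hk) (by rw [card_singleton])
  rw [sum_congr rfl h, sum_add_distrib, sum_add_distrib, sup_count10 (hF 12 (by decide)) h2,
    sup_count10 (hF 11 (by decide)) h2, sup_count10 (hF 10 (by decide)) h2]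

/-- the pair word in the form of the program -/
theorem Lam_KB_word {B : Finset (Finset (Fin 13))} (hB : OddCover B) {s : Finset (Fin 13)}
    (hs : s ⊆ R10) (h2 : s.card = 2) :
    Lam (KB B) s + 12 = ∑ t ∈ (R10.powersetCard 2).filter (Disjoint s),
      (lk B (s ∪ t) % 2 + 3 * (lk B (s ∪ t) / 2)) + 3 * (N2 B s / 2) := by
  have h1 := two_Lam_KB hB hs h2
  rw [cnt_KB_split B hs, ← sum_lk hB hs h2] at h1
  have h3 : ∑ t ∈ (R10.powersetCard 2).filter (Disjoint s), lk B (s ∪ t) =
      ∑ t ∈ (R10.powersetCard 2).filter (Disjoint s), lk B (s ∪ t) % 2 +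
      2 * ∑ t ∈ (R10.powersetCard 2).filter (Disjoint s), lk B (s ∪ t) / 2 := by
    rw [mul_sum, ← sum_add_distrib]
    exact sum_congr rfl fun t _ => (Nat.mod_add_div _ 2).symm
  rw [sum_add_distrib, ← mul_sum]
  unfold N2
  omega

end Pool.Agent.Helper13.TY
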