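import Pool.Agent.Helper13.TY.XJ
import Pool.Agent.Helper62.TY.Rule8

/-!
MP_8ee768_co, project TH-Y', stage X: a cheap test of a pair of lanes before the kill test.
At most one even quad lies inside the eight heavy points `{0, .., 7}` (helper62's `T1E`).
-/

set_option autoImplicit false

namespace Pool.Agent.Helper13.TY

open Finset
open Pool.Agent.Helper63.SIMD
open Pool.Agent.Helper89.CV (ofMask)
open Pool.Agent.Helper97.CV
open Pool.Agent.Helper79.CV
open Pool.Agent.Helper74.TY (XVec Y8 rootA rootM JSound lowbit)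
open Pool.Agent.Helper55.TY (RootDead Fits enc_shift12 enc_mod12)

/-- the links of the three points of a root -/
theorem root_links {B : Finset (Finset (Fin 13))} {c e1 e2 : ℕ} (hc : c < 2 ^ 495)
    (h1 : e1 < 2 ^ 330) (h : Fits B (rootA c e1 e2) rootM) :
    enc 12 4 (link B 12) = c ∧ enc 11 4 (link B 11) = e1 ∧
      enc 10 4 (link B 10) = e2 % 2 ^ 210 := by
  have c1 : Nat.choose 12 4 = 495 := by decide
  have c2 : Nat.choose 11 4 = 330 := by decide
  have c3 : Nat.choose 10 4 = 210 := by decide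
  have c4 : Nat.choose 11 5 = 462 := by decide
  have c5 : Nat.choose 10 5 = 252 := by decide
  have hb : ∀ i, 252 ≤ i → i < 1287 → (enc 13 5 B).testBit i =
      ((decide (792 ≤ i) && c.testBit (i - 792) || decide (462 ≤ i) && e1.testBit (i - 462)) ||
        decide (252 ≤ i) && (e2 % 2 ^ 210).testBit (i - 252)) := by
    intro i hi hi'
    have hA : rootA c e1 e2 = (c <<< 792 ||| e1 <<< 462) ||| (e2 % 2 ^ 210) <<< 252 := rfl
    have hM : rootM = (2 ^ 1035 - 1) <<< 252 := rfl
    have h0 : enc 13 5 B &&& rootM = rootA c e1 e2 := h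
    have h2 := congrArg (Nat.testBit · i) h0
    beta_reduce at h2
    have hm : rootM.testBit i = true := by
      rw [hM, Nat.testBit_shiftLeft, Nat.testBit_two_pow_sub_one, decide_eq_true hi,
        decide_eq_true (by omega), Bool.and_true]
    rw [Nat.testBit_and, hm, Bool.and_true] at h2
    rw [h2, hA, Nat.testBit_or, Nat.testBit_or, Nat.testBit_shiftLeft, Nat.testBit_shiftLeft,
      Nat.testBit_shiftLeft]
  have hx : ∀ i, 210 ≤ i → (e2 % 2 ^ 210).testBit i = false := fun i hi =>
    Nat.testBit_eq_false_of_lt (lt_of_lt_of_le (Nat.mod_lt _ (Nat.two_pow_pos _))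
      (Nat.pow_le_pow_right (by norm_num) hi))
  have hy : ∀ i, 330 ≤ i → e1.testBit i = false := fun i hi =>
    Nat.testBit_eq_false_of_lt (lt_of_lt_of_le h1 (Nat.pow_le_pow_right (by norm_num) hi))
  have s2 := enc_shift 11 4 B
  have m2 := enc_mod 11 4 B
  have s3 := enc_shift 10 4 B
  have v2 : ((11 : Fin 13) : ℕ) = 11 := rfl
  have v3 : ((10 : Fin 13) : ℕ) = 10 := rfl
  rw [v2, c4] at s2
  rw [c4] at m2
  rw [v3, c5] at s3
  have e12 : enc (11 + 1) (4 + 1) B = enc 12 5 B := rfl
  have e11 : enc (10 + 1) (4 + 1) B = enc 11 5 B := rfl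
  have e11' : enc 11 (4 + 1) B = enc 11 5 B := rfl
  rw [e12] at s2 m2
  rw [e11'] at m2
  rw [e11] at s3
  refine ⟨?_, ?_, ?_⟩
  · refine Nat.eq_of_testBit_eq fun i => ?_
    rw [← enc_shift12, Nat.testBit_shiftRight]
    by_cases hi : i < 495
    · rw [hb _ (by omega) (by omega), Nat.add_sub_cancel_left, decide_eq_true (by omega),
        hy _ (by omega), hx _ (by omega), Bool.and_false, Bool.and_false, Bool.or_false,
        Bool.or_false, Bool.true_and]
    · rw [← Nat.testBit_shiftRight, enc_shift12, Nat.testBit_eq_false_of_lt,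
        Nat.testBit_eq_false_of_lt]
      · exact lt_of_lt_of_le hc (Nat.pow_le_pow_right (by norm_num) (not_lt.1 hi))
      · exact lt_of_lt_of_le (enc_lt 12 4 _) (by
          rw [c1]; exact Nat.pow_le_pow_right (by norm_num) (not_lt.1 hi))
  · refine Nat.eq_of_testBit_eq fun i => ?_
    rw [← s2, ← enc_mod12, Nat.testBit_shiftRight, Nat.testBit_mod_two_pow]
    by_cases hi : i < 330
    · rw [hb _ (by omega) (by omega), decide_eq_false (by omega : ¬ 792 ≤ 462 + i),
        Nat.add_sub_cancel_left, decide_eq_true (by omega : 462 + i < 792),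
        decide_eq_true (by omega : 462 ≤ 462 + i),
        hx _ (by omega), Bool.and_false, Bool.or_false, Bool.true_and, Bool.false_and,
        Bool.false_or, Bool.true_and]
    · rw [decide_eq_false (by omega : ¬ 462 + i < 792), Bool.false_and, hy _ (by omega)]
  · refine Nat.eq_of_testBit_eq fun i => ?_
    rw [← s3, ← m2, ← enc_mod12, Nat.testBit_shiftRight, Nat.testBit_mod_two_pow,
      Nat.testBit_mod_two_pow]
    by_cases hi : i < 210
    · rw [hb _ (by omega) (by omega), decide_eq_false (by omega : ¬ 792 ≤ 252 + i),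
        decide_eq_false (by omega : ¬ 462 ≤ 252 + i), Nat.add_sub_cancel_left,
        decide_eq_true (by omega : 252 + i < 462), decide_eq_true (by omega : 252 + i < 792),
        decide_eq_true (by omega : 252 ≤ 252 + i),
        Bool.false_and, Bool.false_and, Bool.false_or, Bool.false_or, Bool.true_and, Bool.true_and,
        Bool.true_and]
    · rw [decide_eq_false (by omega : ¬ 252 + i < 462), Bool.false_and, hx _ (by omega)]

/-- the even quads inside the heavy points which are seen by the three links -/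
def hvy (c70 e1 e2 : ℕ) : ℕ :=
  Nat.land (Nat.lor (Nat.land e1 e2) (Nat.land c70 (Nat.lor e1 e2))) 1180591620717411303423

/-- alive: at most one bit -/
def pre (c70 e1 e2 : ℕ) : Bool :=
  (fun w => Nat.beq (Nat.land w (Nat.sub w 1)) 0) (hvy c70 e1 e2)

theorem mod70 {n : ℕ} (D : Finset (Finset (Fin 13))) (hn : n = 10 ∨ n = 11 ∨ n = 12) :
    enc n 4 D % 2 ^ 70 = enc 8 4 D := by
  have a8 := enc_mod 8 3 D
  have a9 := enc_mod 9 3 D
  have a10 := enc_mod 10 3 D
  have a11 := enc_mod 11 3 D
  have c8 : Nat.choose 8 (3 + 1) = 70 := by decide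
  have c9 : Nat.choose 9 (3 + 1) = 126 := by decide
  have c10 : Nat.choose 10 (3 + 1) = 210 := by decide
  have c11 : Nat.choose 11 (3 + 1) = 330 := by decide
  rw [c8] at a8
  rw [c9] at a9
  rw [c10] at a10
  rw [c11] at a11
  have e10 : enc 10 4 D % 2 ^ 70 = enc 8 4 D := by
    have h1 : enc (9 + 1) (3 + 1) D = enc 10 4 D := rfl
    have h2 : enc (8 + 1) (3 + 1) D = enc 9 (3 + 1) D := rfl
    have h3 : enc 8 (3 + 1) D = enc 8 4 D := rfl
    rw [← h3, ← a8, h2, ← a9, h1, Nat.mod_mod_of_dvd _ (Nat.pow_dvd_pow 2 (by norm_num))]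
  have e11 : enc 11 4 D % 2 ^ 70 = enc 8 4 D := by
    have h1 : enc (10 + 1) (3 + 1) D = enc 11 4 D := rfl
    have h2 : enc 10 (3 + 1) D = enc 10 4 D := rfl
    rw [← e10, ← h2, ← a10, h1, Nat.mod_mod_of_dvd _ (Nat.pow_dvd_pow 2 (by norm_num))]
  rcases hn with rfl | rfl | rfl
  · exact e10
  · exact e11
  · have h1 : enc (11 + 1) (3 + 1) D = enc 12 4 D := rfl
    have h2 : enc 11 (3 + 1) D = enc 11 4 D := rfl
    rw [← e11, ← h2, ← a11, h1, Nat.mod_mod_of_dvd _ (Nat.pow_dvd_pow 2 (by norm_num))]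

/-- two quads with the same three-link excess inside the heavy points: no cover -/
theorem pre_dead {c e1 e2 : ℕ} (hc : c < 2 ^ 495) (h1 : e1 < 2 ^ 330)
    (h : pre (c % 2 ^ 70) e1 e2 = false) :
    RootDead (fun B => XVec B 12 Y8) (rootA c e1 e2) rootM := by
  intro B hX hF
  obtain ⟨l1, l2, l3⟩ := root_links hc h1 hF
  set Mj : Finset (Finset (Fin 13)) := (link B 11 ∩ link B 10) ∪
    (link B 12 ∩ (link B 11 ∪ link B 10)) with hMj
  -- the word is the code of `Mj`
  have hw : hvy (c % 2 ^ 70) e1 e2 = enc 8 4 Mj := by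
    have d1 : enc 8 4 (link B 12) = c % 2 ^ 70 := by rw [← l1]; exact (mod70 _ (by simp)).symm
    have d2 : enc 8 4 (link B 11) = e1 % 2 ^ 70 := by rw [← l2]; exact (mod70 _ (by simp)).symm
    have d3 : enc 8 4 (link B 10) = e2 % 2 ^ 70 := by
      rw [← mod70 (n := 10) _ (by simp), l3, Nat.mod_mod_of_dvd _ (Nat.pow_dvd_pow 2 (by norm_num))]
    rw [hMj, enc_union, enc_inter, enc_inter, enc_union, d1, d2, d3]
    have e0 : hvy (c % 2 ^ 70) e1 e2 =
        ((e1 &&& e2) ||| ((c % 2 ^ 70) &&& (e1 ||| e2))) &&& 1180591620717411303423 := rfl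
    have e9 : (1180591620717411303423 : ℕ) = 2 ^ 70 - 1 := by norm_num
    rw [e0, e9]
    refine Nat.eq_of_testBit_eq fun i => ?_
    simp only [Nat.testBit_and, Nat.testBit_or, Nat.testBit_mod_two_pow,
      Nat.testBit_two_pow_sub_one]
    cases decide (i < 70) <;> cases e1.testBit i <;> cases e2.testBit i <;> cases c.testBit i <;>
      rfl
  have hbad : ∀ q ∈ Mj, q.card = 4 → (∀ a ∈ q, a.val < 8) → 1 ≤ ex B q := by
    intro q hq hq4 hq8
    have hdis : Disjoint ({10, 11, 12} : Finset (Fin 13)) q := by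
      rw [disjoint_left]
      intro a ha haq
      have h3 := hq8 a haq
      simp only [mem_insert, mem_singleton] at ha
      rcases ha with rfl | rfl | rfl <;> exact absurd h3 (by decide)
    have h2 := ex_ge_of_links (B := B) hdis
    refine le_trans ?_ h2
    have h4 : 2 ≤ (({10, 11, 12} : Finset (Fin 13)).filter fun x => q ∈ link B x).card := by
      rw [hMj, mem_union, mem_inter, mem_inter, mem_union] at hq
      have key : ∀ a b : Fin 13, a ∈ ({10, 11, 12} : Finset (Fin 13)) →
          b ∈ ({10, 11, 12} : Finset (Fin 13)) → a ≠ b → q ∈ link B a → q ∈ link B b →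
          2 ≤ (({10, 11, 12} : Finset (Fin 13)).filter fun x => q ∈ link B x).card := by
        intro a b ha hb hab hqa hqb
        rw [← card_pair hab]
        refine card_le_card ?_
        intro x hx
        rw [mem_insert, mem_singleton] at hx
        rcases hx with rfl | rfl
        · exact mem_filter.2 ⟨ha, hqa⟩
        · exact mem_filter.2 ⟨hb, hqb⟩
      rcases hq with ⟨ha, hb⟩ | ⟨ha, hb | hb⟩
      · exact key 11 10 (by decide) (by decide) (by decide) ha hb
      · exact key 12 11 (by decide) (by decide) (by decide) ha hb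
      · exact key 12 10 (by decide) (by decide) (by decide) ha hb
    omega
  -- two bits
  have hne : (hvy (c % 2 ^ 70) e1 e2) &&& ((hvy (c % 2 ^ 70) e1 e2) - 1) ≠ 0 := by
    intro h0
    have h' : Nat.beq (Nat.land (hvy (c % 2 ^ 70) e1 e2)
      (Nat.sub (hvy (c % 2 ^ 70) e1 e2) 1)) 0 = false := h
    have h2 : Nat.land (hvy (c % 2 ^ 70) e1 e2) (Nat.sub (hvy (c % 2 ^ 70) e1 e2) 1) = 0 := h0
    rw [h2] at h'
    exact absurd h' (by decide)
  set w := hvy (c % 2 ^ 70) e1 e2 with hwdef
  have hw0 : w ≠ 0 := by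
    rintro h0
    rw [h0] at hne
    exact hne rfl
  obtain ⟨t, ht, ht2, -⟩ := lowbit hw0
  obtain ⟨s, hs⟩ : ∃ s, (w &&& (w - 1)).testBit s = true := by
    by_contra hcon
    refine hne (Nat.eq_of_testBit_eq fun i => ?_)
    rw [Nat.zero_testBit]
    by_contra h5
    exact hcon ⟨i, by simpa using h5⟩
  have hws : w.testBit s = true := by
    rw [Nat.testBit_and, Bool.and_eq_true] at hs
    exact hs.1
  have hst : s ≠ t := by
    rintro rfl
    have h5 : (w ^^^ (w &&& (w - 1))).testBit s = (2 ^ s).testBit s := by rw [ht2]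
    rw [Nat.testBit_xor, hws, hs, Nat.testBit_two_pow_self] at h5
    exact Bool.noConfusion h5
  rw [hw] at ht hws
  have c8 : (L 8 4).length = 70 := by rw [length_L]; decide
  have hlt : ∀ i, (enc 8 4 Mj).testBit i = true → i < (L 8 4).length := by
    intro i hi
    by_contra h5
    rw [testBit_enc_ge _ (not_lt.1 h5)] at hi
    exact Bool.noConfusion hi
  have hs1 := hlt s hws
  have ht1 := hlt t ht
  rw [testBit_enc _ hs1, decide_eq_true_eq] at hws
  rw [testBit_enc _ ht1, decide_eq_true_eq] at ht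
  have u1 := ofMask_getElem_sub (k := 4) (by norm_num : 8 ≤ 13) hs1
  have u2 := ofMask_getElem_sub (k := 4) (by norm_num : 8 ≤ 13) ht1
  set q1 := ofMask ((L 8 4)[s]) with hq1
  set q2 := ofMask ((L 8 4)[t]) with hq2
  have hq12 : q1 ≠ q2 := by
    intro heq
    have r1 := rk_getElem (k := 4) (by norm_num : 8 ≤ 13) hs1
    have r2 := rk_getElem (k := 4) (by norm_num : 8 ≤ 13) ht1
    rw [← hq1, heq] at r1
    rw [← hq2] at r2
    exact hst (r1.symm.trans r2)
  have k1 := fun a ha => mk_lt_iff.1 u1.1 a ha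
  have k2 := fun a ha => mk_lt_iff.1 u2.1 a ha
  have hE := Pool.Agent.Helper62.TY.T1E hX (E := {q1, q2}) (by
    intro q hq
    rw [mem_insert, mem_singleton] at hq
    rcases hq with rfl | rfl
    · exact hbad _ hws u1.2 k1
    · exact hbad _ ht u2.2 k2) (by
    intro q hq
    rw [mem_insert, mem_singleton] at hq
    rcases hq with rfl | rfl
    · exact u1.2
    · exact u2.2)
  have h0 : ∀ q ∈ ({q1, q2} : Finset (Finset (Fin 13))), (q ∩ insert 12 Y8).card = 0 := by
    intro q hq
    rw [card_eq_zero, ← disjoint_iff_inter_eq_empty, disjoint_left]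
    intro a ha haY
    have h8 : a.val < 8 := by
      rw [mem_insert, mem_singleton] at hq
      rcases hq with rfl | rfl
      · exact k1 a ha
      · exact k2 a ha
    unfold Y8 at haY
    simp only [mem_insert, mem_singleton] at haY
    rcases haY with rfl | rfl | rfl | rfl | rfl <;> exact absurd h8 (by decide)
  rw [filter_true_of_mem h0, card_pair hq12] at hE
  omega

end Pool.Agent.Helper13.TY
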