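import Pool.Agent.Helper79.CV.FCls
import Pool.Agent.Helper74.TY.XNorm

/-!
MP_8ee768_co, project TH-Y', stage X: the classes of links with 57 quads, from the classification
with at most 60 quads.
-/

set_option autoImplicit false
set_option maxRecDepth 100000
set_option exponentiation.threshold 20000

namespace Pool.Agent.Helper13.TY

open Finset
open Pool.Agent.Helper97.CV
open Pool.Agent.Helper79.CV
open Pool.Agent.Helper82.TY (popR popR_eq_pop below)
open Pool.Agent.Helper44.TY (memN memN_iff perm_fix)

/-- every class of `repsF` is in the list or has at least 58 members -/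
def chk0 (reps0 : List ℕ) : Bool := repsF.all fun r => Nat.ble 58 (popR r) || memN reps0 r

theorem rootOK0 (h6 : RootOK 6 (fun _ => True) Pool.Agent.Helper16.TY.reps) {reps0 : List ℕ}
    (h : chk0 reps0 = true) (hlt : ∀ r ∈ repsF, r < 2 ^ 495) :
    RootOK 0 (fun _ => True) reps0 := by
  intro D hD hc _
  obtain ⟨j, r, hj, σ, hσ⟩ := clsOK_repsF h6 D hD (by omega)
  have hr : r ∈ repsF := List.mem_iff_getElem?.2 ⟨j, hj⟩
  refine ⟨σ, perm_fix hD hσ, r, ?_, hσ⟩
  have h1 := List.all_eq_true.1 h r hr
  rw [Bool.or_eq_true, memN_iff] at h1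
  rcases h1 with h1 | h1
  · exfalso
    have h2 := Nat.le_of_ble_eq_true h1
    rw [popR_eq_pop] at h2
    have h3 := Pool.Agent.Helper82.TY.card_eq_pop (n := 12) (k := 4) (by norm_num)
      (D := fam 12 4 r) (fun s hs => sub_of_mem_fam (by norm_num) hs)
    rw [enc_fam (by norm_num) (by rw [show (12 : ℕ).choose 4 = 495 by decide]; exact hlt r hr)]
      at h3
    have h4 : (fam 12 4 r).card = D.card := by rw [← hσ, card_mapF]
    omega
  · exact h1

theorem repsF_lt : ∀ r ∈ repsF, r < 2 ^ 495 := by
  have h : (repsF.all fun r => Nat.blt r (2 ^ 495)) = true := by decide +kernel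
  intro r hr
  exact Nat.lt_of_succ_le (Nat.le_of_ble_eq_true (List.all_eq_true.1 h r hr))

end Pool.Agent.Helper13.TY
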