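import Pool.Agent.Helper13.TY.XExpDef
import Pool.Agent.Helper55.TY.M10Run

/-!
MP_8ee768_co, project TH-Y', stage X: the words of a pair of lanes (program).
`c` is the code of the link of 12, `e1` of the link of 11 without 12, `e2` of the link of 10
(low 210 bits: without 11 and 12).
-/

set_option autoImplicit false

namespace Pool.Agent.Helper13.TY

open Pool.Agent.Helper55.TY.M10 (cC1 cC2 cM2)

/-- 12 on the pairs -/
def x12 : ℕ := Nat.mul 12 Pool.Agent.Helper55.TY.M10.cO2

/-- 127 on the pairs -/
def x127p : ℕ := Nat.mul 127 Pool.Agent.Helper55.TY.M10.cO2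

/-- 2 ^ 210 - 1 -/
def m210 : ℕ := 1645504557321206042154969182557350504982735865633579863348609023

/-- parity of the three links on the outside quads -/
def pxd (c e1 e2 : ℕ) : ℕ := Nat.land (Nat.xor (Nat.xor e1 e2) c) m210

/-- at least two of the three links -/
def mxd (c e1 e2 : ℕ) : ℕ :=
  Nat.land (Nat.lor (Nat.land e1 e2) (Nat.land c (Nat.lor e1 e2))) m210

/-- the pair degrees of a code of triples -/
def d3 (x : ℕ) : ℕ := Nat.land (Nat.shiftRight (Nat.mul (x3 x) cC1) 4096) cM2

/-- number of the blocks of the root code with one or two more points of `K`, for every pair -/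
def nc (c : ℕ) : ℕ :=
  Nat.add (Nat.add (d3 (Nat.mod (Nat.shiftRight c 210) 1329227995784915872903807060280344576))
    (d3 (Nat.mod (Nat.shiftRight c 330) 1329227995784915872903807060280344576)))
    (x2 (Nat.shiftRight c 450))

/-- three halves of the number of blocks with at least two points of `K` -/
def hw (c e1 : ℕ) : ℕ :=
  Nat.mul 3 (Nat.land (Nat.shiftRight (Nat.add (nc c) (d3 (Nat.shiftRight e1 210))) 1) x127p)

/-- the parity word -/
def pw (c e1 e2 : ℕ) : ℕ := x4 (pxd c e1 e2)

/-- the pair word -/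
def fw (c e1 e2 : ℕ) : ℕ :=
  Nat.sub (Nat.add (Nat.land (Nat.shiftRight (Nat.mul (Nat.add (pw c e1 e2)
    (Nat.mul 3 (x4 (mxd c e1 e2)))) cC2) 8184) cM2) (hw c e1)) x12

end Pool.Agent.Helper13.TY
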