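import Pool.Agent.Helper13.TY.XExpand
import Pool.Agent.Helper13.TY.XWDef
import Pool.Agent.Helper13.TY.XPairId
import Pool.Agent.Helper13.TY.XPre
import Pool.Agent.Helper55.TY.Bridge

/-!
MP_8ee768_co, project TH-Y', stage X: the words `pw`, `fw` of a pair of lanes are the start of the
search machine M10.
-/

set_option autoImplicit false

namespace Pool.Agent.Helper13.TY

open Finset
open Pool.Agent.Helper63.SIMD
open Pool.Agent.Helper89.CV (OddCover ofMask)
open Pool.Agent.Helper97.CV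
open Pool.Agent.Helper79.CV
open Pool.Agent.Helper74.TY (XVec Y8 rootA rootM JSound)
open Pool.Agent.Helper55.TY (RootDead Fits)
open Pool.Agent.Helper55.TY.M10 (cC1 cC2 cM2 cO2 KillOK Start run cB start_of_KB)
open Pool.Agent.Helper28.TY (KB K3 lk cnt_KB)
open Pool.Agent.Helper81.TY (R10 mem_R10 Fam10 bw bw_congr bw_add bw_mul bw_sub' bw_half lay
  lay8_lay corr_bw sup_count10 cnt_same10 sum_disj_le mk_lt_R10)
open Pool.Agent.Helper33.TY (ind ind_le corr cC lay8)

/-! ### constants -/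

theorem cM2_lay : cM2 = lay 255 2 := by
  rw [← lay8_lay]
  decide +kernel

theorem x12_lay : x12 = lay 12 2 := by
  rw [← lay8_lay]
  decide +kernel

theorem x127p_lay : x127p = lay 127 2 := by
  rw [← lay8_lay]
  decide +kernel

theorem cC1_cC : cC1 = cC 512 (L 10 1) := by decide +kernel

theorem cC2_cC : cC2 = cC 1023 (L 10 2) := by decide +kernel

/-! ### words of triples and pairs -/

theorem rk_bound {k n : ℕ} (hn : n = Nat.choose 10 k) {s : Finset (Fin 13)} (hs : s ⊆ R10)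
    (hk : s.card = k) : Sub 10 k s ∧ rk 10 k s < n := by
  have h1 : Sub 10 k s := ⟨mk_lt_R10.2 hs, hk⟩
  refine ⟨h1, ?_⟩
  rw [hn, ← length_L]
  exact rk_lt (by norm_num) h1

theorem d3_word {F : Finset (Finset (Fin 13))} (hF : Fam10 3 F) {x : ℕ} (hx : x < 2 ^ 120)
    (hb : ∀ s, s ⊆ R10 → s.card = 3 → x.testBit (rk 10 3 s) = decide (s ∈ F)) :
    d3 x = bw fun s => if s.card = 2 then cnt F s else 0 := by
  have hx' : x < 2 ^ (Nat.choose 10 3) := hx
  have h1 : x3 x = bw (ind F) := by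
    show xpd xM3 xK3 xL3 xH3 x = _
    rw [xpd_bw chk3 hx']
    refine bw_congr fun s hs => ?_
    unfold ind
    by_cases h3 : s.card = 3
    · refine if_congr ?_ rfl rfl
      rw [hb s hs h3, decide_eq_true_eq]
      exact and_iff_right h3
    · rw [if_neg fun h => h3 h.1, if_neg fun h => h3 (hF s h).2]
  have h2 : d3 x = corr 512 (cC 512 (L 10 1)) (bw (ind F)) &&& lay 255 2 := by
    have h3 : d3 x = ((x3 x * cC1) >>> 4096) &&& cM2 := rfl
    rw [h3, h1, cM2_lay, cC1_cC]
    rfl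
  rw [h2, corr_bw (i := 2) (j := 1) (b := 1) (fun s _ h => by
    unfold ind
    exact if_neg fun h3 => h (hF s h3).2) (fun s _ => ind_le F s) (by decide) (by decide)]
  refine bw_congr fun s _ => ?_
  split_ifs with h3
  · exact sup_count10 (i := 2) (j := 1) hF h3
  · rfl

theorem x2_word {F : Finset (Finset (Fin 13))} (hF : Fam10 2 F) {x : ℕ} (hx : x < 2 ^ 45)
    (hb : ∀ s, s ⊆ R10 → s.card = 2 → x.testBit (rk 10 2 s) = decide (s ∈ F)) :
    x2 x = bw fun s => if s.card = 2 then cnt F s else 0 := by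
  have hx' : x < 2 ^ (Nat.choose 10 2) := hx
  show xpd xM2 xK2 xL2 xH2 x = _
  rw [xpd_bw chk2 hx']
  refine bw_congr fun s hs => ?_
  by_cases h2 : s.card = 2
  · rw [if_pos h2, cnt_same10 hF h2]
    unfold ind
    refine if_congr ?_ rfl rfl
    rw [hb s hs h2, decide_eq_true_eq]
    exact and_iff_right h2
  · rw [if_neg fun h => h2 h.1, if_neg h2]

theorem cnt_le10 {F : Finset (Finset (Fin 13))} (hF : Fam10 3 F) {s : Finset (Fin 13)}
    (hs : s.card = 2) : cnt F s ≤ 10 := by
  rw [← sup_count10 (i := 2) (j := 1) hF hs]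
  have h := sum_disj_le (j := 1) (s := s) (f := fun t => ind F (s ∪ t)) (b := 1)
    (fun t => ind_le F _)
  rw [show Nat.choose 10 1 = 10 by decide] at h
  omega

theorem cnt_le1 {F : Finset (Finset (Fin 13))} (hF : Fam10 2 F) {s : Finset (Fin 13)}
    (hs : s.card = 2) : cnt F s ≤ 1 := by
  rw [cnt_same10 hF hs]
  exact ind_le F s

/-! ### the codes of a root -/

/-- the codes of the three links -/
structure Cod (B : Finset (Finset (Fin 13))) (c e1 e2 : ℕ) : Prop where
  odd : OddCover B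
  lt1 : e1 < 2 ^ 330
  h12 : enc 12 4 (link B 12) = c
  h11 : enc 11 4 (link B 11) = e1
  h10 : enc 10 4 (link B 10) = e2 % 2 ^ 210

section

variable {B : Finset (Finset (Fin 13))} {c e1 e2 : ℕ}

theorem mod210 {n : ℕ} (D : Finset (Finset (Fin 13))) (hn : n = 10 ∨ n = 11 ∨ n = 12) :
    enc n 4 D % 2 ^ 210 = enc 10 4 D := by
  have a10 := enc_mod 10 3 D
  have a11 := enc_mod 11 3 D
  have c10 : Nat.choose 10 (3 + 1) = 210 := by decide
  have c11 : Nat.choose 11 (3 + 1) = 330 := by decide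
  rw [c10] at a10
  rw [c11] at a11
  have e11 : enc 11 4 D % 2 ^ 210 = enc 10 4 D := by
    have h1 : enc (10 + 1) (3 + 1) D = enc 11 4 D := rfl
    have h2 : enc 10 (3 + 1) D = enc 10 4 D := rfl
    rw [← h2, ← a10, h1]
  rcases hn with rfl | rfl | rfl
  · refine Nat.mod_eq_of_lt ?_
    have h := enc_lt 10 4 D
    rwa [show Nat.choose 10 4 = 210 by decide] at h
  · exact e11
  · have h1 : enc (11 + 1) (3 + 1) D = enc 12 4 D := rfl
    have h2 : enc 11 (3 + 1) D = enc 11 4 D := rfl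
    rw [← e11, ← h2, ← a11, h1, Nat.mod_mod_of_dvd _ (Nat.pow_dvd_pow 2 (by norm_num))]

theorem Cod.bits (h : Cod B c e1 e2) {s : Finset (Fin 13)} (hs : s ⊆ R10) (h4 : s.card = 4) :
    c.testBit (rk 10 4 s) = decide (s ∈ link B 12) ∧
    e1.testBit (rk 10 4 s) = decide (s ∈ link B 11) ∧
    e2.testBit (rk 10 4 s) = decide (s ∈ link B 10) ∧ rk 10 4 s < 210 := by
  obtain ⟨h1, h2⟩ := rk_bound (k := 4) (n := 210) (by decide) hs h4
  have key : ∀ (x : ℕ) (D : Finset (Finset (Fin 13))), x % 2 ^ 210 = enc 10 4 D →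
      x.testBit (rk 10 4 s) = decide (s ∈ D) := by
    intro x D hx
    have h3 := testBit_enc_rk (by norm_num : 10 ≤ 13) D h1
    rw [← h3, ← hx, Nat.testBit_mod_two_pow, decide_eq_true h2, Bool.true_and]
  refine ⟨key _ _ ?_, key _ _ ?_, key _ _ h.h10.symm, h2⟩
  · rw [← h.h12]
    exact mod210 _ (by simp)
  · rw [← h.h11]
    exact mod210 _ (by simp)

theorem m210_eq : m210 = 2 ^ 210 - 1 := by decide +kernel

theorem pxd_testBit (c e1 e2 i : ℕ) : (pxd c e1 e2).testBit i =
    (((e1.testBit i ^^ e2.testBit i) ^^ c.testBit i) && decide (i < 210)) := by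
  have h : pxd c e1 e2 = ((e1 ^^^ e2) ^^^ c) &&& m210 := rfl
  rw [h, m210_eq, Nat.testBit_and, Nat.testBit_xor, Nat.testBit_xor,
    Nat.testBit_two_pow_sub_one]

theorem mxd_testBit (c e1 e2 i : ℕ) : (mxd c e1 e2).testBit i =
    (((e1.testBit i && e2.testBit i) || (c.testBit i && (e1.testBit i || e2.testBit i))) &&
      decide (i < 210)) := by
  have h : mxd c e1 e2 = ((e1 &&& e2) ||| (c &&& (e1 ||| e2))) &&& m210 := rfl
  rw [h, m210_eq, Nat.testBit_and, Nat.testBit_or, Nat.testBit_and, Nat.testBit_and,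
    Nat.testBit_or, Nat.testBit_two_pow_sub_one]

theorem land_m210_lt (x : ℕ) : x &&& m210 < 2 ^ 210 := by
  rw [m210_eq, Nat.and_two_pow_sub_one_eq_mod]
  exact Nat.mod_lt _ (Nat.two_pow_pos 210)

theorem lk_val (B : Finset (Finset (Fin 13))) (q : Finset (Fin 13)) :
    lk B q = (if q ∈ link B 12 then 1 else 0) + (if q ∈ link B 11 then 1 else 0) +
      (if q ∈ link B 10 then 1 else 0) := rfl

theorem Cod.px (h : Cod B c e1 e2) :
    pw c e1 e2 = bw fun q => if q.card = 4 then lk B q % 2 else 0 := by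
  have hx : pxd c e1 e2 < 2 ^ (Nat.choose 10 4) := land_m210_lt _
  show xpd xM4 xK4 xL4 xH4 (pxd c e1 e2) = _
  rw [xpd_bw chk4 hx]
  refine bw_congr fun s hs => ?_
  by_cases h4 : s.card = 4
  · obtain ⟨b1, b2, b3, b4⟩ := h.bits hs h4
    rw [pxd_testBit, b1, b2, b3, decide_eq_true b4, Bool.and_true, if_pos h4, lk_val]
    by_cases i1 : s ∈ link B 12 <;> by_cases i2 : s ∈ link B 11 <;>
      by_cases i3 : s ∈ link B 10 <;> simp [i1, i2, i3, h4]
  · rw [if_neg fun h => h4 h.1, if_neg h4]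

theorem Cod.mx (h : Cod B c e1 e2) :
    x4 (mxd c e1 e2) = bw fun q => if q.card = 4 then lk B q / 2 else 0 := by
  have hx : mxd c e1 e2 < 2 ^ (Nat.choose 10 4) := land_m210_lt _
  show xpd xM4 xK4 xL4 xH4 (mxd c e1 e2) = _
  rw [xpd_bw chk4 hx]
  refine bw_congr fun s hs => ?_
  by_cases h4 : s.card = 4
  · obtain ⟨b1, b2, b3, b4⟩ := h.bits hs h4
    rw [mxd_testBit, b1, b2, b3, decide_eq_true b4, Bool.and_true, if_pos h4, lk_val]
    by_cases i1 : s ∈ link B 12 <;> by_cases i2 : s ∈ link B 11 <;>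
      by_cases i3 : s ∈ link B 10 <;> simp [i1, i2, i3, h4]
  · rw [if_neg fun h => h4 h.1, if_neg h4]

theorem un2 (s : Finset (Fin 13)) (a b : Fin 13) : s ∪ {a, b} = insert b (insert a s) := by
  ext v
  simp only [mem_union, mem_insert, mem_singleton]
  tauto

theorem un3 (s : Finset (Fin 13)) (a b d : Fin 13) :
    s ∪ {a, b, d} = insert d (insert b (insert a s)) := by
  ext v
  simp only [mem_union, mem_insert, mem_singleton]
  tauto

/-- the links of the links -/
theorem Cod.fams (h : Cod B c e1 e2) :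
    (∀ s, s ⊆ R10 → s.card = 3 → (c >>> 210 % 2 ^ 120).testBit (rk 10 3 s) =
      decide (s ∈ FJ B {10, 12})) ∧
    (∀ s, s ⊆ R10 → s.card = 3 → (c >>> 330 % 2 ^ 120).testBit (rk 10 3 s) =
      decide (s ∈ FJ B {11, 12})) ∧
    (∀ s, s ⊆ R10 → s.card = 2 → (c >>> 450).testBit (rk 10 2 s) =
      decide (s ∈ FJ B {10, 11, 12})) ∧
    (∀ s, s ⊆ R10 → s.card = 3 → (e1 >>> 210).testBit (rk 10 3 s) =
      decide (s ∈ FJ B {10, 11})) ∧ c < 2 ^ 495 := by
  have hn : ∀ k : Fin 13, 10 ≤ k.val → ∀ s : Finset (Fin 13), s ⊆ R10 → k ∉ s := by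
    intro k hk s hs h1
    have := mem_R10.1 (hs h1)
    omega
  have v12 : ((12 : Fin 13) : ℕ) = 12 := rfl
  have v11 : ((11 : Fin 13) : ℕ) = 11 := rfl
  have v10 : ((10 : Fin 13) : ℕ) = 10 := rfl
  have c114 : Nat.choose 11 4 = 330 := by decide
  have c104 : Nat.choose 10 4 = 210 := by decide
  have c113 : Nat.choose 11 3 = 165 := by decide
  have c103 : Nat.choose 10 3 = 120 := by decide
  have c124 : Nat.choose 12 4 = 495 := by decide
  -- the link of 11 in the link of 12
  have s1 := enc_shift 11 3 (link B 12)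
  rw [v11, show Nat.choose 11 (3 + 1) = 330 from c114] at s1
  have s1' : c >>> 330 = enc 11 3 (link (link B 12) 11) := by
    rw [← h.h12]
    exact s1
  have m1 := enc_mod 11 3 (link B 12)
  rw [show Nat.choose 11 (3 + 1) = 330 from c114] at m1
  have m1' : c % 2 ^ 330 = enc 11 4 (link B 12) := by
    rw [← h.h12]
    exact m1
  have s2 := enc_shift 10 3 (link B 12)
  rw [v10, show Nat.choose 10 (3 + 1) = 210 from c104] at s2
  have s2' : (c % 2 ^ 330) >>> 210 = enc 10 3 (link (link B 12) 10) := by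
    rw [m1']
    exact s2
  have e2' : (c % 2 ^ 330) >>> 210 = c >>> 210 % 2 ^ 120 := by
    refine Nat.eq_of_testBit_eq fun i => ?_
    rw [Nat.testBit_shiftRight, Nat.testBit_mod_two_pow, Nat.testBit_mod_two_pow,
      Nat.testBit_shiftRight, show decide (210 + i < 330) = decide (i < 120) from
      decide_eq_decide.2 (by omega)]
  have m3 := enc_mod 10 2 (link (link B 12) 11)
  rw [show Nat.choose 10 (2 + 1) = 120 from c103] at m3
  have m3' : c >>> 330 % 2 ^ 120 = enc 10 3 (link (link B 12) 11) := by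
    rw [s1']
    exact m3
  have s3 := enc_shift 10 2 (link (link B 12) 11)
  rw [v10, show Nat.choose 10 (2 + 1) = 120 from c103] at s3
  have s3' : c >>> 450 = enc 10 2 (link (link (link B 12) 11) 10) := by
    have e3 : c >>> 450 = (c >>> 330) >>> 120 := by rw [← Nat.shiftRight_add]
    rw [e3, s1']
    exact s3
  have s4 := enc_shift 10 3 (link B 11)
  rw [v10, show Nat.choose 10 (3 + 1) = 210 from c104] at s4
  have s4' : e1 >>> 210 = enc 10 3 (link (link B 11) 10) := by
    rw [← h.h11]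
    exact s4
  refine ⟨?_, ?_, ?_, ?_, ?_⟩
  · intro s hs h3
    obtain ⟨h1, -⟩ := rk_bound (k := 3) rfl hs h3
    rw [← e2', s2', testBit_enc_rk (by norm_num) _ h1]
    refine decide_eq_decide.2 ?_
    rw [mem_link, mem_link, mem_FJ]
    rw [un2]
    refine ⟨fun h => ⟨hs, h.2.2⟩, fun h => ⟨hn 10 (by decide) s hs, ?_, h.2⟩⟩
    rw [mem_insert, not_or]
    exact ⟨by decide, hn 12 (by decide) s hs⟩
  · intro s hs h3
    obtain ⟨h1, -⟩ := rk_bound (k := 3) rfl hs h3
    rw [m3', testBit_enc_rk (by norm_num) _ h1]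
    refine decide_eq_decide.2 ?_
    rw [mem_link, mem_link, mem_FJ]
    rw [un2]
    refine ⟨fun h => ⟨hs, h.2.2⟩, fun h => ⟨hn 11 (by decide) s hs, ?_, h.2⟩⟩
    rw [mem_insert, not_or]
    exact ⟨by decide, hn 12 (by decide) s hs⟩
  · intro s hs h3
    obtain ⟨h1, -⟩ := rk_bound (k := 2) rfl hs h3
    rw [s3', testBit_enc_rk (by norm_num) _ h1]
    refine decide_eq_decide.2 ?_
    rw [mem_link, mem_link, mem_link, mem_FJ]
    rw [un3]
    refine ⟨fun h => ⟨hs, h.2.2.2⟩, fun h => ⟨hn 10 (by decide) s hs, ?_, ?_, h.2⟩⟩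
    · rw [mem_insert, not_or]
      exact ⟨by decide, hn 11 (by decide) s hs⟩
    · rw [mem_insert, not_or, mem_insert, not_or]
      exact ⟨by decide, by decide, hn 12 (by decide) s hs⟩
  · intro s hs h3
    obtain ⟨h1, -⟩ := rk_bound (k := 3) rfl hs h3
    rw [s4', testBit_enc_rk (by norm_num) _ h1]
    refine decide_eq_decide.2 ?_
    rw [mem_link, mem_link, mem_FJ]
    rw [un2]
    refine ⟨fun h => ⟨hs, h.2.2⟩, fun h => ⟨hn 10 (by decide) s hs, ?_, h.2⟩⟩
    rw [mem_insert, not_or]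
    exact ⟨by decide, hn 11 (by decide) s hs⟩
  · rw [← h.h12, ← c124]
    exact enc_lt 12 4 _

theorem shr_lt {x a b : ℕ} (h : x < 2 ^ (a + b)) : x >>> a < 2 ^ b := by
  rw [Nat.shiftRight_eq_div_pow, Nat.div_lt_iff_lt_mul (Nat.two_pow_pos a), ← pow_add,
    Nat.add_comm b a]
  exact h

theorem Cod.ncw (h : Cod B c e1 e2) :
    nc c = bw fun s => if s.card = 2 then cnt (FJ B {10, 12}) s + cnt (FJ B {11, 12}) s +
      cnt (FJ B {10, 11, 12}) s else 0 := by
  obtain ⟨f1, f2, f3, f4, hc⟩ := h.fams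
  have hB := h.odd.1
  have e0 : (1329227995784915872903807060280344576 : ℕ) = 2 ^ 120 := by norm_num
  have h0 : nc c = (d3 (c >>> 210 % 2 ^ 120) + d3 (c >>> 330 % 2 ^ 120)) + x2 (c >>> 450) := by
    rw [← e0]
    rfl
  rw [h0, d3_word (F := FJ B {10, 12}) (fam_FJ hB (by decide) (by decide))
      (Nat.mod_lt _ (Nat.two_pow_pos 120)) f1,
    d3_word (F := FJ B {11, 12}) (fam_FJ hB (by decide) (by decide))
      (Nat.mod_lt _ (Nat.two_pow_pos 120)) f2,
    x2_word (F := FJ B {10, 11, 12}) (fam_FJ hB (by decide) (by decide))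
      (shr_lt (a := 450) (b := 45) hc) f3, bw_add, bw_add]
  refine bw_congr fun s _ => ?_
  split_ifs <;> rfl

theorem Cod.hww (h : Cod B c e1 e2) :
    hw c e1 = bw fun s => if s.card = 2 then 3 * (N2 B s / 2) else 0 := by
  obtain ⟨f1, f2, f3, f4, hc⟩ := h.fams
  have hB := h.odd.1
  have h0 : hw c e1 = 3 * (((nc c + d3 (e1 >>> 210)) >>> 1) &&& x127p) := rfl
  rw [h0, h.ncw, d3_word (F := FJ B {10, 11}) (fam_FJ hB (by decide) (by decide))
    (shr_lt (a := 210) (b := 120) h.lt1) f4, bw_add, x127p_lay, bw_half, bw_mul]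
  · refine bw_congr fun s _ => ?_
    by_cases h2 : s.card = 2
    · simp only [if_pos h2]
      unfold N2
      rfl
    · simp only [if_neg h2]
  · intro s _
    by_cases h2 : s.card = 2
    · simp only [if_pos h2]
      have k1 := cnt_le10 (F := FJ B {10, 12}) (fam_FJ hB (by decide) (by decide)) h2
      have k2 := cnt_le10 (F := FJ B {11, 12}) (fam_FJ hB (by decide) (by decide)) h2
      have k3 := cnt_le1 (F := FJ B {10, 11, 12}) (fam_FJ hB (by decide) (by decide)) h2
      have k4 := cnt_le10 (F := FJ B {10, 11}) (fam_FJ hB (by decide) (by decide)) h2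
      omega
    · simp only [if_neg h2]
      norm_num

/-- THE PAIR WORD of a pair of lanes -/
theorem Cod.fww (h : Cod B c e1 e2) :
    fw c e1 e2 = bw fun s => if s.card = 2 then Lam (KB B) s else 0 := by
  have h0 : fw c e1 e2 = ((((pw c e1 e2 + 3 * x4 (mxd c e1 e2)) * cC2) >>> 8184) &&& cM2) +
      hw c e1 - x12 := rfl
  have h1 : pw c e1 e2 + 3 * x4 (mxd c e1 e2) =
      bw fun q => if q.card = 4 then lk B q % 2 + 3 * (lk B q / 2) else 0 := by
    rw [h.px, h.mx, bw_mul, bw_add]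
    refine bw_congr fun s _ => ?_
    split_ifs <;> rfl
  have hlk : ∀ q, lk B q ≤ 3 := by
    intro q
    rw [lk_val]
    split_ifs <;> omega
  have h2 : (((pw c e1 e2 + 3 * x4 (mxd c e1 e2)) * cC2) >>> 8184) &&& cM2 =
      bw fun s => if s.card = 2 then ∑ t ∈ (R10.powersetCard 2).filter (Disjoint s),
        (fun q => if q.card = 4 then lk B q % 2 + 3 * (lk B q / 2) else 0) (s ∪ t) else 0 := by
    rw [h1, cM2_lay, cC2_cC]
    refine corr_bw (i := 2) (j := 2) (b := 4) (K := 1023)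
      (g := fun q => if q.card = 4 then lk B q % 2 + 3 * (lk B q / 2) else 0)
      (fun s _ h => if_neg h) (fun s _ => ?_) (by decide +kernel) (by decide)
    have := hlk s
    show (if s.card = 4 then lk B s % 2 + 3 * (lk B s / 2) else 0) ≤ 4
    split_ifs <;> omega
  have h3 : ∀ s, s ⊆ R10 → s.card = 2 →
      (∑ t ∈ (R10.powersetCard 2).filter (Disjoint s),
        (fun q => if q.card = 4 then lk B q % 2 + 3 * (lk B q / 2) else 0) (s ∪ t)) +
        3 * (N2 B s / 2) = Lam (KB B) s + 12 := by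
    intro s hs hc
    rw [Lam_KB_word h.odd hs hc]
    refine congrArg (· + 3 * (N2 B s / 2)) (sum_congr rfl fun t ht => ?_)
    rw [mem_filter, mem_powersetCard] at ht
    exact if_pos (by rw [card_union_of_disjoint ht.2, hc, ht.1.2])
  rw [h0, h2, h.hww, bw_add, x12_lay]
  show _ - bw (fun s => if s.card = 2 then 12 else 0) = _
  rw [bw_sub']
  · refine bw_congr fun s hs => ?_
    by_cases hc : s.card = 2
    · have := h3 s hs hc
      simp only [if_pos hc] at this ⊢
      omega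
    · simp only [if_neg hc]
  · intro s hs
    by_cases hc : s.card = 2
    · have := h3 s hs hc
      simp only [if_pos hc] at this ⊢
      omega
    · simp only [if_neg hc]
      exact Nat.zero_le _

/-- THE START OF M10 -/
theorem Cod.start (h : Cod B c e1 e2) {K : ℕ → Bool} (hK : KillOK K B) :
    Start K (pw c e1 e2) (fw c e1 e2) B := by
  refine start_of_KB h.odd hK ?_ h.fww ?_ ?_
  · rw [h.px]
    refine bw_congr fun q hq => ?_
    by_cases h4 : q.card = 4
    · rw [if_pos h4, if_pos h4, cnt_KB h.odd.1 h4 hq]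
    · rw [if_neg h4, if_neg h4]
  · intro s _ h2
    rw [if_pos h2]
  · intro s _ h2
    rw [if_neg h2]

end

/-- the codes of a root -/
theorem cod_of {B : Finset (Finset (Fin 13))} {c e1 e2 : ℕ} (hX : XVec B 12 Y8)
    (hc : c < 2 ^ 495) (h1 : e1 < 2 ^ 330) (h : Fits B (rootA c e1 e2) rootM) :
    Cod B c e1 e2 := by
  obtain ⟨l1, l2, l3⟩ := root_links hc h1 h
  exact ⟨hX.odd, h1, l1, l2, l3⟩

end Pool.Agent.Helper13.TY
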